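import Mathlib

set_option autoImplicit false

namespace Pool.Agent.H476RA

/-- the kernel quotient -/
def NN {G D : Type} [Group G] [Group D] (F : G →* D) (l : ℕ) : Subgroup G :=
  (derivedSeries F.ker l).map F.ker.subtype

instance NN_normal {G D : Type} [Group G] [Group D] (F : G →* D) (l : ℕ) : (NN F l).Normal := by
  unfold NN
  infer_instance

theorem NN_le {G D : Type} [Group G] [Group D] (F : G →* D) (l : ℕ) : NN F l ≤ F.ker :=
  Subgroup.map_subtype_le _

/-- induced map -/
def rh {G D : Type} [Group G] [Group D] (F : G →* D) (l : ℕ) : G ⧸ NN F l →* D :=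
  QuotientGroup.lift (NN F l) F (NN_le F l)

theorem rh_ker_solv {G D : Type} [Group G] [Group D] (F : G →* D) (l : ℕ) :
    Group.IsSolvable (rh F l).ker := by
  let π : F.ker →* (rh F l).ker :=
    ((QuotientGroup.mk' (NN F l)).comp F.ker.subtype).codRestrict (rh F l).ker (fun x => x.2)
  have hπ : Function.Surjective π := by
    rintro ⟨y, hy⟩
    obtain ⟨x, rfl⟩ := QuotientGroup.mk'_surjective (NN F l) y
    exact ⟨⟨x, hy⟩, rfl⟩
  refine ⟨l, ?_⟩
  rw [← map_derivedSeries_eq hπ, eq_bot_iff]
  rintro _ ⟨x, hx, rfl⟩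
  rw [Subgroup.mem_bot]
  apply Subtype.ext
  show (QuotientGroup.mk' (NN F l)) (x : G) = 1
  rw [QuotientGroup.mk'_apply, QuotientGroup.eq_one_iff]
  exact ⟨x, hx, rfl⟩

theorem quot_solv {G D : Type} [Group G] [Group D] (F : G →* D) (l : ℕ)
    (χ : D →* Multiplicative ℤ)
    (hχ : ∀ S : Finset D, (∀ s ∈ S, χ s = 1) → Group.IsSolvable (Subgroup.closure (S : Set D)))
    (S : Finset (G ⧸ NN F l)) (hS : ∀ s ∈ S, (χ.comp (rh F l)) s = 1) :
    Group.IsSolvable (Subgroup.closure (S : Set (G ⧸ NN F l))) := by
  classical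
  have h1 : Group.IsSolvable (Subgroup.closure ((S.image (rh F l) : Finset D) : Set D)) := by
    apply hχ
    intro s hs
    obtain ⟨x, hx, rfl⟩ := Finset.mem_image.mp hs
    exact hS x hx
  have h2 := rh_ker_solv F l
  let P := Subgroup.closure (S : Set (G ⧸ NN F l))
  let g : P →* Subgroup.closure ((S.image (rh F l) : Finset D) : Set D) :=
    ((rh F l).comp P.subtype).codRestrict _ (by
      intro x
      have hx : (rh F l) x ∈ P.map (rh F l) := ⟨x, x.2, rfl⟩
      rw [MonoidHom.map_closure] at hx
      rw [Finset.coe_image]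
      exact hx)
  have h3 : Group.IsSolvable g.ker := by
    let i : g.ker →* (rh F l).ker := ((P.subtype).comp g.ker.subtype).codRestrict _ (by
      intro x
      have := x.2
      rw [MonoidHom.mem_ker] at this
      exact congrArg Subtype.val this)
    apply Group.isSolvable_of_isSolvable_injective (f := i)
    intro x y hxy
    apply Subtype.ext
    apply Subtype.ext
    exact congrArg (fun z : (rh F l).ker => (z : G ⧸ NN F l)) hxy
  exact Group.isSolvable_of_ker_le_range g.ker.subtype g (by rw [Subgroup.range_subtype])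

end Pool.Agent.H476RA
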