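import Mathlib

/-! Free groups are residually solvable. -/

set_option autoImplicit false

namespace Pool.Agent.H476RA

open scoped commutatorElement

namespace FR

/-- the ring of operators -/
abbrev R : Type := Module.End ℤ (ℕ → ℤ)

/-- operators which raise the degree by at least `j` -/
def J (j : ℕ) : Set R := {T | ∀ (r : ℕ → ℤ) (p : ℕ), (∀ q, q + j ≤ p → r q = 0) → T r p = 0}

theorem J_mul {i j : ℕ} {S T : R} (hS : S ∈ J i) (hT : T ∈ J j) : S * T ∈ J (i + j) := by
  intro r p h
  refine hS (T r) p fun q hq => hT r q fun q' hq' => h q' (by omega)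

theorem J_add {j : ℕ} {S T : R} (hS : S ∈ J j) (hT : T ∈ J j) : S + T ∈ J j := by
  intro r p h
  show S r p + T r p = 0
  rw [hS r p h, hT r p h, add_zero]

theorem J_sub {j : ℕ} {S T : R} (hS : S ∈ J j) (hT : T ∈ J j) : S - T ∈ J j := by
  intro r p h
  show S r p - T r p = 0
  rw [hS r p h, hT r p h, sub_zero]

theorem J_zero (j : ℕ) : (0 : R) ∈ J j := fun _ _ _ => rfl

theorem J_one : (1 : R) ∈ J 0 := fun _ p h => h p (by omega)

theorem J_mono {i j : ℕ} (hij : i ≤ j) {T : R} (hT : T ∈ J j) : T ∈ J i := by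
  intro r p h
  exact hT r p fun q hq => h q (by omega)

/-- congruence subgroups -/
def K (j : ℕ) : Subgroup Rˣ where
  carrier := {u | (u : R) - 1 ∈ J j ∧ ((u⁻¹ : Rˣ) : R) - 1 ∈ J j}
  one_mem' := by
    constructor
    · rw [Units.val_one, sub_self]; exact J_zero j
    · rw [inv_one, Units.val_one, sub_self]; exact J_zero j
  mul_mem' := by
    rintro u v ⟨h1, h2⟩ ⟨h3, h4⟩
    have key : ∀ a b : R, a - 1 ∈ J j → b - 1 ∈ J j → a * b - 1 ∈ J j := by
      intro a b ha hb
      have hb0 : b ∈ J 0 := by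
        have : b = (b - 1) + 1 := by noncomm_ring
        rw [this]
        exact J_add (J_mono (Nat.zero_le j) hb) J_one
      have h5 : a * b - 1 = (a - 1) * b + (b - 1) := by noncomm_ring
      rw [h5]
      exact J_add (J_mul (i := j) (j := 0) ha hb0) hb
    constructor
    · rw [Units.val_mul]; exact key _ _ h1 h3
    · rw [mul_inv_rev, Units.val_mul]; exact key _ _ h4 h2
  inv_mem' := by
    rintro u ⟨h1, h2⟩
    exact ⟨h2, by rw [inv_inv]; exact h1⟩

theorem K_comm {j : ℕ} {u v : Rˣ} (hu : u ∈ K j) (hv : v ∈ K j) : ⁅u, v⁆ ∈ K (j + j) := by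
  have key : ∀ u v : Rˣ, u ∈ K j → v ∈ K j → ((⁅u, v⁆ : Rˣ) : R) - 1 ∈ J (j + j) := by
    intro u v hu hv
    have h0 : ∀ w : Rˣ, w ∈ K j → (w : R) ∈ J 0 := by
      intro w hw
      have : (w : R) = ((w : R) - 1) + 1 := by noncomm_ring
      rw [this]
      exact J_add (J_mono (Nat.zero_le j) hw.1) J_one
    have h1 : ((⁅u, v⁆ : Rˣ) : R) - 1 =
        (((u : R) - 1) * ((v : R) - 1) - ((v : R) - 1) * ((u : R) - 1)) *
          (((u⁻¹ : Rˣ) : R) * ((v⁻¹ : Rˣ) : R)) := by
      have h2 : (((u : R) - 1) * ((v : R) - 1) - ((v : R) - 1) * ((u : R) - 1)) =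
          (u : R) * (v : R) - (v : R) * (u : R) := by noncomm_ring
      rw [h2, sub_mul]
      have h3 : (v : R) * (u : R) * (((u⁻¹ : Rˣ) : R) * ((v⁻¹ : Rˣ) : R)) = 1 := by
        rw [← Units.val_mul, ← Units.val_mul, ← Units.val_mul, ← mul_inv_rev, mul_inv_cancel,
          Units.val_one]
      rw [h3, commutatorElement_def]
      simp only [Units.val_mul, mul_assoc]
    rw [h1]
    have h4 : (((u⁻¹ : Rˣ) : R) * ((v⁻¹ : Rˣ) : R)) ∈ J 0 :=
      J_mul (i := 0) (j := 0) (h0 _ ((K j).inv_mem hu)) (h0 _ ((K j).inv_mem hv))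
    exact J_mul (i := j + j) (j := 0) (J_sub (J_mul hu.1 hv.1) (J_mul hv.1 hu.1)) h4
  refine ⟨key u v hu hv, ?_⟩
  rw [commutatorElement_inv]
  exact key v u hv hu

theorem derived_le {G : Type} [Group G] (φ : G →* Rˣ) (h : ∀ g, φ g ∈ K 1) (l : ℕ) :
    derivedSeries G l ≤ (K (2 ^ l)).comap φ := by
  induction l with
  | zero => intro g _; exact h g
  | succ l ih =>
    rw [derivedSeries_succ, Subgroup.commutator_le]
    intro g₁ h₁ g₂ h₂
    show φ ⁅g₁, g₂⁆ ∈ K (2 ^ (l + 1))
    rw [map_commutatorElement, pow_succ, mul_two]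
    exact K_comm (ih h₁) (ih h₂)

variable {Y : Type}

open Classical in
/-- the shift along the edges with label `y` -/
noncomputable def N (f : ℕ → Option Y) (y : Y) : R where
  toFun r p := if 0 < p ∧ f p = some y then r (p - 1) else 0
  map_add' r s := by
    funext p
    by_cases h : 0 < p ∧ f p = some y
    · simp [h]
    · simp only [if_neg h, Pi.add_apply, add_zero]
  map_smul' c r := by
    funext p
    by_cases h : 0 < p ∧ f p = some y
    · simp [h]
    · simp only [if_neg h, Pi.smul_apply, smul_zero]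

theorem N_pos {f : ℕ → Option Y} {y : Y} {p : ℕ} (hp : 0 < p) (h : f p = some y) (r : ℕ → ℤ) :
    N f y r p = r (p - 1) := if_pos ⟨hp, h⟩

theorem N_neg {f : ℕ → Option Y} {y : Y} {p : ℕ} (h : ¬ (0 < p ∧ f p = some y)) (r : ℕ → ℤ) :
    N f y r p = 0 := if_neg h

theorem N_mem (f : ℕ → Option Y) (y : Y) : N f y ∈ J 1 := by
  intro r p h
  by_cases h1 : 0 < p ∧ f p = some y
  · rw [N_pos h1.1 h1.2]
    exact h _ (by omega)
  · exact N_neg h1 r

/-- labels of neighbouring edges are different -/
def Sep (f : ℕ → Option Y) : Prop := ∀ y p, f p = some y → f (p + 1) ≠ some y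

theorem N_sq {f : ℕ → Option Y} (hf : Sep f) (y : Y) : N f y * N f y = 0 := by
  ext1 r
  funext p
  show N f y (N f y r) p = 0
  by_cases h1 : 0 < p ∧ f p = some y
  · rw [N_pos h1.1 h1.2]
    apply N_neg
    rintro ⟨h2, h3⟩
    apply hf y (p - 1) h3
    rw [Nat.sub_add_cancel h1.1]
    exact h1.2
  · exact N_neg h1 _

/-- the unipotent operator of a generator -/
noncomputable def U {f : ℕ → Option Y} (hf : Sep f) (y : Y) : Rˣ where
  val := 1 + N f y
  inv := 1 - N f y
  val_inv := by
    have : (1 + N f y) * (1 - N f y) = 1 - N f y * N f y := by noncomm_ring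
    rw [this, N_sq hf, sub_zero]
  inv_val := by
    have : (1 - N f y) * (1 + N f y) = 1 - N f y * N f y := by noncomm_ring
    rw [this, N_sq hf, sub_zero]

theorem U_mem {f : ℕ → Option Y} (hf : Sep f) (y : Y) : U hf y ∈ K 1 := by
  constructor
  · show 1 + N f y - 1 ∈ J 1
    have : 1 + N f y - 1 = N f y := by noncomm_ring
    rw [this]; exact N_mem f y
  · show 1 - N f y - 1 ∈ J 1
    have : 1 - N f y - 1 = 0 - N f y := by noncomm_ring
    rw [this]; exact J_sub (J_zero 1) (N_mem f y)

theorem U_zpow {f : ℕ → Option Y} (hf : Sep f) (y : Y) (e : ℤ) :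
    (((U hf y) ^ e : Rˣ) : R) = 1 + e • N f y := by
  have hsq := N_sq hf y
  induction e using Int.induction_on with
  | zero => simp
  | succ n ih =>
    rw [zpow_add_one, Units.val_mul, ih]
    show (1 + (n : ℤ) • N f y) * (1 + N f y) = _
    have : (1 + (n : ℤ) • N f y) * (1 + N f y) =
        1 + ((n : ℤ) + 1) • N f y + (n : ℤ) • (N f y * N f y) := by
      simp only [add_smul, one_smul, add_mul, mul_add, one_mul, mul_one, smul_mul_assoc]
      abel
    rw [this, hsq, smul_zero, add_zero]
  | pred n ih =>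
    rw [zpow_sub_one, Units.val_mul, ih]
    show (1 + (-(n : ℤ)) • N f y) * (1 - N f y) = _
    have : (1 + (-(n : ℤ)) • N f y) * (1 - N f y) =
        1 + (-(n : ℤ) - 1) • N f y + (n : ℤ) • (N f y * N f y) := by
      simp only [sub_smul, one_smul, add_mul, mul_sub, one_mul, mul_one, smul_mul_assoc, neg_smul,
        neg_mul]
      abel
    rw [this, hsq, smul_zero, add_zero]

/-- the representation -/
noncomputable def rep {f : ℕ → Option Y} (hf : Sep f) : FreeGroup Y →* Rˣ :=
  FreeGroup.lift (U hf)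

theorem rep_mem {f : ℕ → Option Y} (hf : Sep f) (g : FreeGroup Y) : rep hf g ∈ K 1 := by
  have h : (FreeGroup.lift (U hf)).range ≤ K 1 := FreeGroup.range_lift_le (by
    rintro _ ⟨y, rfl⟩
    exact U_mem hf y)
  exact h ⟨g, rfl⟩

/-- product of syllables -/
def pr (L : List (Y × ℤ)) : FreeGroup Y := (L.map fun s => FreeGroup.of s.1 ^ s.2).prod

/-- labels given by a list of syllables -/
def lab : List (Y × ℤ) → ℕ → Option Y
  | [] => fun _ => none
  | s :: L => fun p => if p = L.length + 1 then some s.1 else lab L p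

theorem lab_none (L : List (Y × ℤ)) (p : ℕ) (h : L.length < p) : lab L p = none := by
  induction L with
  | nil => rfl
  | cons s L ih =>
    rw [List.length_cons] at h
    have h1 : ¬ p = L.length + 1 := by omega
    show (if p = L.length + 1 then some s.1 else lab L p) = none
    rw [if_neg h1]
    exact ih (by omega)

theorem lab_sep (L : List (Y × ℤ)) (hL : L.IsChain (fun a b => a.1 ≠ b.1)) : Sep (lab L) := by
  induction L with
  | nil => intro y p h; cases h
  | cons s L ih =>
    intro y p h
    have ih' := ih hL.tail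
    have e : ∀ q, lab (s :: L) q = if q = L.length + 1 then some s.1 else lab L q := fun _ => rfl
    rw [e] at h ⊢
    by_cases h1 : p = L.length + 1
    · rw [if_neg (by omega), lab_none L (p + 1) (by omega)]
      exact fun h => by cases h
    · rw [if_neg h1] at h
      by_cases h2 : p + 1 = L.length + 1
      · rw [if_pos h2]
        have h3 : p = L.length := by omega
        cases L with
        | nil => cases h
        | cons t L' =>
          have e2 : lab (t :: L') p = if p = L'.length + 1 then some t.1 else lab L' p := rfl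
          rw [e2, if_pos (by rw [h3, List.length_cons])] at h
          intro h4
          have h5 : t.1 = s.1 := by
            rw [← h4] at h
            exact Option.some.inj h
          exact (List.isChain_cons_cons.mp hL).1 h5.symm
      · rw [if_neg h2]
        exact ih' y p h

theorem rep_eval (L : List (Y × ℤ)) : ∀ (f : ℕ → Option Y) (hf : Sep f),
    (∀ p, p ≤ L.length → 1 ≤ p → f p = lab L p) →
    (∀ p, L.length < p → ((rep hf (pr L) : Rˣ) : R) (Pi.single 0 1) p = 0) ∧
      ((rep hf (pr L) : Rˣ) : R) (Pi.single 0 1) L.length = (L.map Prod.snd).prod := by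
  induction L with
  | nil =>
    intro f hf _
    have h0 : rep hf (pr []) = 1 := by simp [pr]
    rw [h0]
    constructor
    · intro p hp
      show (Pi.single 0 1 : ℕ → ℤ) p = 0
      exact Pi.single_eq_of_ne (by simpa using (Nat.pos_iff_ne_zero.mp hp)) _
    · show (Pi.single 0 1 : ℕ → ℤ) 0 = 1
      exact Pi.single_eq_same _ _
  | cons s L ih =>
    intro f hf hlab
    have e : ∀ q, lab (s :: L) q = if q = L.length + 1 then some s.1 else lab L q := fun _ => rfl
    obtain ⟨h1, h2⟩ := ih f hf (by
      intro p hp hp1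
      rw [hlab p (by rw [List.length_cons]; omega) hp1, e, if_neg (by omega)])
    have h3 : ((rep hf (pr (s :: L)) : Rˣ) : R) = (1 + s.2 • N f s.1) * ((rep hf (pr L) : Rˣ) : R) := by
      have h4 : pr (s :: L) = FreeGroup.of s.1 ^ s.2 * pr L := by simp [pr]
      rw [h4, map_mul, map_zpow, Units.val_mul]
      congr 1
      have h5 : rep hf (FreeGroup.of s.1) = U hf s.1 := FreeGroup.lift_apply_of
      rw [h5, U_zpow]
    have h6 : ∀ p, ((rep hf (pr (s :: L)) : Rˣ) : R) (Pi.single 0 1) p =
        ((rep hf (pr L) : Rˣ) : R) (Pi.single 0 1) p +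
          s.2 * N f s.1 (((rep hf (pr L) : Rˣ) : R) (Pi.single 0 1)) p := by
      intro p
      rw [h3]
      rfl
    constructor
    · intro p hp
      rw [List.length_cons] at hp
      rw [h6, h1 p (by omega)]
      by_cases h7 : 0 < p ∧ f p = some s.1
      · rw [N_pos h7.1 h7.2, h1 (p - 1) (by omega)]; simp
      · rw [N_neg h7]; simp
    · rw [List.length_cons, h6, h1 _ (by omega), N_pos (by omega) (by
        rw [hlab _ (by rw [List.length_cons]) (by omega), e, if_pos rfl])]
      rw [Nat.add_sub_cancel, h2, List.map_cons, List.prod_cons]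
      ring

/-- the syllable form -/
theorem exists_syll (w : FreeGroup Y) : ∃ L : List (Y × ℤ), L.IsChain (fun a b => a.1 ≠ b.1) ∧
    (∀ s ∈ L, s.2 ≠ 0) ∧ pr L = w := by
  classical
  have step : ∀ (y : Y) (ε : ℤ), ε ≠ 0 → ∀ L : List (Y × ℤ), L.IsChain (fun a b => a.1 ≠ b.1) →
      (∀ s ∈ L, s.2 ≠ 0) → ∃ L' : List (Y × ℤ), L'.IsChain (fun a b => a.1 ≠ b.1) ∧
      (∀ s ∈ L', s.2 ≠ 0) ∧ pr L' = FreeGroup.of y ^ ε * pr L := by
    intro y ε hε L hL h0
    cases L with
    | nil =>
      refine ⟨[(y, ε)], List.isChain_singleton _, ?_, ?_⟩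
      · intro s hs
        rw [List.mem_singleton] at hs
        rw [hs]; exact hε
      · simp [pr]
    | cons t L =>
      by_cases hy : t.1 = y
      · by_cases he : ε + t.2 = 0
        · refine ⟨L, hL.tail, fun s hs => h0 s (List.mem_cons_of_mem _ hs), ?_⟩
          have h1 : pr (t :: L) = FreeGroup.of t.1 ^ t.2 * pr L := by simp [pr]
          rw [h1, hy, ← mul_assoc, ← zpow_add, he, zpow_zero, one_mul]
        · refine ⟨(y, ε + t.2) :: L, ?_, ?_, ?_⟩
          · cases L with
            | nil => exact List.isChain_singleton _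
            | cons t' L' =>
              rw [List.isChain_cons_cons] at hL ⊢
              refine ⟨?_, hL.2⟩
              rw [← hy]; exact hL.1
          · intro s hs
            rcases List.mem_cons.mp hs with h | h
            · rw [h]; exact he
            · exact h0 s (List.mem_cons_of_mem _ h)
          · have h1 : pr (t :: L) = FreeGroup.of t.1 ^ t.2 * pr L := by simp [pr]
            have h2 : pr ((y, ε + t.2) :: L) = FreeGroup.of y ^ (ε + t.2) * pr L := by simp [pr]
            rw [h1, h2, hy, ← mul_assoc, ← zpow_add]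
      · refine ⟨(y, ε) :: t :: L, ?_, ?_, ?_⟩
        · rw [List.isChain_cons_cons]
          exact ⟨fun h => hy h.symm, hL⟩
        · intro s hs
          rcases List.mem_cons.mp hs with h | h
          · rw [h]; exact hε
          · exact h0 s h
        · simp [pr]
  have main : ∀ W : List (Y × Bool), ∃ L : List (Y × ℤ), L.IsChain (fun a b => a.1 ≠ b.1) ∧
      (∀ s ∈ L, s.2 ≠ 0) ∧ pr L = FreeGroup.mk W := by
    intro W
    induction W with
    | nil => exact ⟨[], List.isChain_nil, by simp, by simp [pr, FreeGroup.one_eq_mk]⟩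
    | cons a W ih =>
      obtain ⟨L, hL, h0, h1⟩ := ih
      obtain ⟨y, b⟩ := a
      cases b with
      | true =>
        obtain ⟨L', h2, h3, h4⟩ := step y 1 one_ne_zero L hL h0
        refine ⟨L', h2, h3, ?_⟩
        rw [h4, h1, zpow_one, FreeGroup.of, FreeGroup.mul_mk]
        rfl
      | false =>
        obtain ⟨L', h2, h3, h4⟩ := step y (-1) (by norm_num) L hL h0
        refine ⟨L', h2, h3, ?_⟩
        rw [h4, h1, zpow_neg, zpow_one, FreeGroup.of, FreeGroup.inv_mk, FreeGroup.mul_mk]
        rfl
  obtain ⟨L, h1, h2, h3⟩ := main w.toWord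
  exact ⟨L, h1, h2, by rw [h3, FreeGroup.mk_toWord]⟩

end FR

open FR in
/-- A: free groups are residually solvable -/
theorem free_resid (Y : Type) (w : FreeGroup Y) (hw : w ≠ 1) :
    ∃ l, w ∉ derivedSeries (FreeGroup Y) l := by
  obtain ⟨L, hL, h0, hpr⟩ := exists_syll w
  have hlen : 0 < L.length := by
    rcases Nat.eq_zero_or_pos L.length with h | h
    · exfalso
      apply hw
      rw [← hpr, List.length_eq_zero_iff.mp h]
      simp [pr]
    · exact h
  have hf := lab_sep L hL
  refine ⟨L.length, fun hmem => ?_⟩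
  have h1 := (derived_le (rep hf) (rep_mem hf) L.length hmem).1
  have h2 := h1 (Pi.single 0 1) L.length (fun q hq => by
    have := Nat.lt_two_pow_self (n := L.length)
    omega)
  have h3 : ((rep hf w : Rˣ) : R) (Pi.single 0 1) L.length - (Pi.single 0 1 : ℕ → ℤ) L.length = 0 := h2
  rw [Pi.single_eq_of_ne (by omega : L.length ≠ 0), sub_zero] at h3
  obtain ⟨-, h4⟩ := rep_eval L (lab L) hf (fun p _ _ => rfl)
  rw [hpr, h3] at h4
  have h5 : (L.map Prod.snd).prod ≠ 0 := by
    rw [Ne, List.prod_eq_zero_iff]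
    intro h
    obtain ⟨s, hs, h6⟩ := List.mem_map.mp h
    exact h0 s hs h6
  exact h5 h4.symm

end Pool.Agent.H476RA
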