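import Mathlib
import Pool.Agent.Helper240.Amen.HB

set_option autoImplicit false

namespace Pool.Agent.H476RA

open Pool.Agent.Helper240.Amen

/-- the functionals below `p`, invariant under `S` -/
def XX {G E : Type} [Group G] [AddCommGroup E] [Module ℝ E] (π : G →* Module.End ℝ E)
    (p : E → ℝ) (S : Finset G) : Set (E → ℝ) :=
  {m | (∀ x, m x ≤ p x) ∧ (∀ x, -p (-x) ≤ m x) ∧ (∀ x y, m (x + y) = m x + m y) ∧
    (∀ (c : ℝ) x, m (c • x) = c * m x) ∧ ∀ g ∈ S, ∀ x, m (π g x) = m x}

theorem XX_closed {G E : Type} [Group G] [AddCommGroup E] [Module ℝ E]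
    (π : G →* Module.End ℝ E) (p : E → ℝ) (S : Finset G) : IsClosed (XX π p S) := by
  have e : XX π p S = (⋂ x, {m : E → ℝ | m x ≤ p x}) ∩ ((⋂ x, {m : E → ℝ | -p (-x) ≤ m x}) ∩
      ((⋂ x, ⋂ y, {m : E → ℝ | m (x + y) = m x + m y}) ∩
        ((⋂ c : ℝ, ⋂ x, {m : E → ℝ | m (c • x) = c * m x}) ∩
          (⋂ g ∈ S, ⋂ x, {m : E → ℝ | m (π g x) = m x})))) := by
    ext m
    simp only [XX, Set.mem_ofPred_eq, Set.mem_inter_iff, Set.mem_iInter]
  rw [e]
  refine IsClosed.inter ?_ (IsClosed.inter ?_ (IsClosed.inter ?_ (IsClosed.inter ?_ ?_)))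
  · exact isClosed_iInter fun x => isClosed_le (continuous_apply x) continuous_const
  · exact isClosed_iInter fun x => isClosed_le continuous_const (continuous_apply x)
  · exact isClosed_iInter fun x => isClosed_iInter fun y =>
      isClosed_eq (continuous_apply _) ((continuous_apply x).add (continuous_apply y))
  · exact isClosed_iInter fun c => isClosed_iInter fun x =>
      isClosed_eq (continuous_apply _) (continuous_const.mul (continuous_apply x))
  · exact isClosed_iInter fun g => isClosed_iInter fun _ => isClosed_iInter fun x =>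
      isClosed_eq (continuous_apply _) (continuous_apply x)

theorem XX_compact {G E : Type} [Group G] [AddCommGroup E] [Module ℝ E]
    (π : G →* Module.End ℝ E) (p : E → ℝ) (S : Finset G) : IsCompact (XX π p S) := by
  have hK : IsCompact (Set.pi Set.univ (fun x : E => Set.Icc (-p (-x)) (p x))) :=
    isCompact_univ_pi fun x => isCompact_Icc
  refine hK.of_isClosed_subset (XX_closed π p S) ?_
  intro m hm x _
  exact ⟨hm.2.1 x, hm.1 x⟩

/-- the invariant Hahn-Banach property is local -/
theorem invHB_of_local {G : Type} [Group G]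
    (h : ∀ S : Finset G, InvHB (Subgroup.closure (S : Set G))) : InvHB G := by
  classical
  intro E _ _ π p h1 h2 hp
  have hne : ∀ S : Finset G, (XX π p S).Nonempty := by
    intro S
    obtain ⟨m, hm1, hm2⟩ := h S E (π.comp (Subgroup.closure (S : Set G)).subtype) p h1 h2
      (fun g x => hp g x)
    refine ⟨m, hm1, ?_, ?_, ?_, ?_⟩
    · intro x
      have := hm1 (-x)
      rw [map_neg] at this
      linarith
    · exact fun x y => map_add m x y
    · exact fun c x => map_smul m c x
    · intro g hg x
      exact hm2 ⟨g, Subgroup.subset_closure hg⟩ x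
  have hdir : Directed (· ⊇ ·) (fun S : Finset G => XX π p S) := by
    intro S T
    refine ⟨S ∪ T, ?_, ?_⟩
    · rintro m ⟨a1, a2, a3, a4, a5⟩
      exact ⟨a1, a2, a3, a4, fun g hg => a5 g (Finset.mem_union_left T hg)⟩
    · rintro m ⟨a1, a2, a3, a4, a5⟩
      exact ⟨a1, a2, a3, a4, fun g hg => a5 g (Finset.mem_union_right S hg)⟩
  obtain ⟨m, hm⟩ := IsCompact.nonempty_iInter_of_directed_nonempty_isCompact_isClosed
    (fun S : Finset G => XX π p S) hdir hne (fun S => XX_compact π p S)
    (fun S => XX_closed π p S)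
  rw [Set.mem_iInter] at hm
  obtain ⟨a1, a2, a3, a4, _⟩ := hm ∅
  refine ⟨{ toFun := m, map_add' := a3, map_smul' := fun c x => a4 c x }, a1, ?_⟩
  intro g x
  exact (hm {g}).2.2.2.2 g (Finset.mem_singleton_self g) x

/-- B: locally solvable by abelian groups are amenable -/
theorem amen_of_locsolv (Q A : Type) [Group Q] [CommGroup A] (χ : Q →* A)
    (h : ∀ S : Finset Q, (∀ s ∈ S, χ s = 1) → Group.IsSolvable (Subgroup.closure (S : Set Q))) :
    Amenable Q := by
  classical
  apply InvHB.amenable
  refine InvHB.step χ.ker ?_ (invHB_of_local ?_)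
  · intro a b
    rw [MonoidHom.mem_ker, map_mul, map_mul, map_mul, map_inv, map_inv, mul_comm (χ a) (χ b),
      mul_inv_cancel_right, mul_inv_cancel]
  · intro S
    have hs := h (S.image Subtype.val) (by
      intro s hs
      rw [Finset.mem_image] at hs
      obtain ⟨t, _, rfl⟩ := hs
      exact t.2)
    have e : (Subgroup.closure (S : Set χ.ker)).map χ.ker.subtype =
        Subgroup.closure ((S.image Subtype.val : Finset Q) : Set Q) := by
      rw [MonoidHom.map_closure, Finset.coe_image]
      rfl
    rw [← e] at hs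
    have hinj : Function.Injective (Subgroup.equivMapOfInjective
        (Subgroup.closure (S : Set χ.ker)) χ.ker.subtype
        (Subgroup.subtype_injective _)).toMonoidHom :=
      (Subgroup.equivMapOfInjective _ _ _).injective
    have hs2 : Group.IsSolvable (Subgroup.closure (S : Set χ.ker)) :=
      Group.isSolvable_of_isSolvable_injective hinj
    obtain ⟨n, hn⟩ := hs2
    exact InvHB.of_derived n _ hn

end Pool.Agent.H476RA
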