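import Mathlib

set_option autoImplicit false

namespace Pool.Agent.H476RA

open HNNExtension

section

variable {B : Type} [Group B] {P R : Subgroup B} {φ : P ≃* R} {D : Type} [Group D]
  (f : HNNExtension B P R φ →* D)

/-- the edge group in `D` -/
def CC : Subgroup D := R.map (f.comp HNNExtension.of)

abbrev YY : Type := D ⧸ CC f

/-- permutation of the basis -/
def act : D →* MulAut (FreeGroup (YY f)) where
  toFun d := FreeGroup.freeGroupCongr (MulAction.toPerm d)
  map_one' := by
    apply MulEquiv.toMonoidHom_injective
    apply FreeGroup.ext_hom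
    intro y
    simp
  map_mul' d e := by
    apply MulEquiv.toMonoidHom_injective
    apply FreeGroup.ext_hom
    intro y
    simp [mul_smul]

theorem act_of (d : D) (y : YY f) : act f d (FreeGroup.of y) = FreeGroup.of (d • y) := by
  simp [act]

theorem mk_eq_one {d : D} (hd : d ∈ CC f) : d • (QuotientGroup.mk (1 : D) : YY f) = QuotientGroup.mk 1 := by
  rw [MulAction.Quotient.smul_mk, smul_eq_mul, mul_one]
  rw [QuotientGroup.eq]
  simpa using hd

/-- the embedding -/
def Th : HNNExtension B P R φ →* FreeGroup (YY f) ⋊[act f] D :=
  HNNExtension.lift (SemidirectProduct.inr.comp (f.comp of))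
    (⟨FreeGroup.of (QuotientGroup.mk 1), f t⟩) (by
      intro a
      ext
      · simp only [MonoidHom.comp_apply, SemidirectProduct.mul_left, SemidirectProduct.left_inr,
          SemidirectProduct.right_inr, map_one, mul_one, one_mul]
        rw [act_of, mk_eq_one]
        exact ⟨_, (φ a).2, rfl⟩
      · simp only [MonoidHom.comp_apply, SemidirectProduct.mul_right,
          SemidirectProduct.right_inr]
        rw [← map_mul, ← map_mul, t_mul_of])

theorem Th_of (b : B) : Th f (of b) = SemidirectProduct.inr (f (of b)) := by
  simp [Th]

theorem Th_t : Th f t = ⟨FreeGroup.of (QuotientGroup.mk 1), f t⟩ := by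
  simp [Th]

theorem Th_right (g : HNNExtension B P R φ) : (Th f g).right = f g := by
  have : (SemidirectProduct.rightHom.comp (Th f)) = f := by
    apply HNNExtension.hom_ext
    · ext b
      simp [Th_of]
    · simp [Th_t]
  exact DFunLike.congr_fun this g

open Classical in
/-- the word in the free group -/
def LL : D → List (ℤˣ × B) → List (YY f × Bool)
  | _, [] => []
  | d, (u, g) :: l => (if u = 1 then (QuotientGroup.mk d, true) else
      (QuotientGroup.mk (d * (f t)⁻¹), false)) :: LL (d * f (t ^ (u : ℤ) * of g)) l

theorem LL_mk (l : List (ℤˣ × B)) : ∀ d : D,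
    act f d (Th f (l.map (fun x => t ^ (x.1 : ℤ) * of x.2)).prod).left = FreeGroup.mk (LL f d l) := by
  induction l with
  | nil =>
    intro d
    simp only [List.map_nil, List.prod_nil, map_one, LL]
    exact (map_one _).trans FreeGroup.one_eq_mk
  | cons x l ih =>
    intro d
    obtain ⟨u, g⟩ := x
    have e : FreeGroup.mk (LL f d ((u, g) :: l)) =
        (FreeGroup.mk [if u = 1 then (QuotientGroup.mk d, true) else
          (QuotientGroup.mk (d * (f t)⁻¹), false)] : FreeGroup (YY f)) *
        FreeGroup.mk (LL f (d * f (t ^ (u : ℤ) * of g)) l) := by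
      rw [FreeGroup.mul_mk]
      rfl
    rw [e, ← ih, List.map_cons, List.prod_cons, map_mul, SemidirectProduct.mul_left, map_mul]
    congr 1
    · rw [map_mul, SemidirectProduct.mul_left, Th_of]
      rw [SemidirectProduct.left_inr, map_one, mul_one]
      rcases Int.units_eq_one_or u with rfl | rfl
      · simp only [Units.val_one, zpow_one, if_true]
        rw [Th_t]
        simp only
        rw [act_of]
        show FreeGroup.mk [_] = _
        congr 3
        rw [MulAction.Quotient.smul_mk, smul_eq_mul, mul_one]
      · have h1 : ((-1 : ℤˣ) = 1) = False := by simp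
        simp only [h1, if_false]
        rw [Units.val_neg, Units.val_one, zpow_neg_one, map_inv, Th_t,
          SemidirectProduct.inv_left]
        simp only
        rw [← map_inv f t]
        rw [map_inv ((act f) (f t⁻¹)), act_of, map_inv ((act f) d), act_of]
        show FreeGroup.mk [(_, false)] = _
        congr 3
        rw [MulAction.Quotient.smul_mk, smul_eq_mul, mul_one, MulAction.Quotient.smul_mk,
          smul_eq_mul]
    · rw [Th_right, ← MulAut.mul_apply, ← map_mul]

theorem mem_CC_iff (hf : Function.Injective (f.comp HNNExtension.of)) (b : B) :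
    f (of b) ∈ CC f ↔ b ∈ R := by
  constructor
  · rintro ⟨c, hc, h⟩
    have : c = b := hf h
    exact this ▸ hc
  · intro h
    exact ⟨b, h, rfl⟩

theorem mem_CC_iff' (hf : Function.Injective (f.comp HNNExtension.of)) (b : B) :
    f t * f (of b) * (f t)⁻¹ ∈ CC f ↔ b ∈ P := by
  constructor
  · rintro ⟨c, hc, h⟩
    have h1 : f (of c) = f t * f (of b) * (f t)⁻¹ := h
    have h2 : f (of ((φ.symm ⟨c, hc⟩ : P) : B)) = f (of b) := by
      have h3 := t_mul_of (φ := φ) (φ.symm ⟨c, hc⟩)
      rw [MulEquiv.apply_symm_apply] at h3
      have h4 := congrArg f h3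
      rw [map_mul, map_mul] at h4
      simp only at h4
      rw [h1] at h4
      simpa using h4
    have h5 : ((φ.symm ⟨c, hc⟩ : P) : B) = b := hf h2
    rw [← h5]
    exact (φ.symm ⟨c, hc⟩).2
  · intro h
    refine ⟨φ ⟨b, h⟩, (φ ⟨b, h⟩).2, ?_⟩
    show f (of _) = _
    rw [← map_mul, ← map_inv, ← map_mul, t_mul_of (φ := φ) ⟨b, h⟩, mul_inv_cancel_right]

theorem LL_red (hf : Function.Injective (f.comp HNNExtension.of)) (l : List (ℤˣ × B)) : ∀ d : D,
    l.IsChain (fun a b => a.2 ∈ toSubgroup P R a.1 → a.1 = b.1) →
    FreeGroup.IsReduced (LL f d l) := by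
  induction l with
  | nil => intro d _; exact FreeGroup.IsReduced.nil
  | cons x l ih =>
    intro d h
    obtain ⟨u, g⟩ := x
    cases l with
    | nil => exact FreeGroup.IsReduced.singleton
    | cons y l =>
      obtain ⟨v, k⟩ := y
      rw [List.isChain_cons_cons] at h
      have h2 := ih (d * f (t ^ (u : ℤ) * of g)) h.2
      show FreeGroup.IsReduced (_ :: _ :: _)
      refine FreeGroup.isReduced_cons_cons.mpr ⟨?_, h2⟩
      have h1 := h.1
      simp only at h1
      intro e
      rcases Int.units_eq_one_or u with rfl | rfl
      · rcases Int.units_eq_one_or v with rfl | rfl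
        · simp
        · exfalso
          have h3 : ((-1 : ℤˣ) = 1) = False := by simp
          simp only [h3, if_false, if_true, Units.val_one, zpow_one] at e
          rw [QuotientGroup.eq] at e
          have : g ∈ P := by
            rw [← mem_CC_iff' f hf]
            convert e using 1
            rw [map_mul]
            group
          have := h1 this
          simp at this
      · rcases Int.units_eq_one_or v with rfl | rfl
        · exfalso
          have h3 : ((-1 : ℤˣ) = 1) = False := by simp
          simp only [h3, if_false, if_true, Units.val_neg, Units.val_one, zpow_neg_one] at e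
          rw [QuotientGroup.eq] at e
          have : g ∈ R := by
            rw [← mem_CC_iff f hf]
            convert e using 1
            rw [map_mul, map_inv]
            group
          have := h1 this
          simp at this
        · simp

end

/-- C: HNN extensions and kernels -/
theorem hnn_ker (B : Type) [Group B] (P R : Subgroup B) (φ : P ≃* R) (D : Type) [Group D]
    (f : HNNExtension B P R φ →* D) (hf : Function.Injective (f.comp HNNExtension.of))
    (g : HNNExtension B P R φ) (hg : g ≠ 1) (hfg : g ∈ f.ker) :
    ∃ (Y : Type) (θ : f.ker →* FreeGroup Y), θ ⟨g, hfg⟩ ≠ 1 := by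
  classical
  have hr : ∀ k : f.ker, (Th f k).right = 1 := fun k => (Th_right f k).trans k.2
  refine ⟨YY f, MonoidHom.mk' (fun k => (Th f k).left) (by
    intro k k'
    show (Th f (k * k' : f.ker)).left = _
    rw [Subgroup.coe_mul, map_mul, SemidirectProduct.mul_left, hr, map_one]
    rfl), ?_⟩
  intro h
  have h1 : (Th f g).left = 1 := h
  obtain ⟨d⟩ := NormalWord.TransversalPair.nonempty B P R
  obtain ⟨w, hw⟩ := (NormalWord.equiv φ d).symm.surjective g
  have hw' : w.prod φ = g := hw
  have hp : g = of w.head * (w.toList.map (fun x => t ^ (x.1 : ℤ) * of x.2)).prod := hw'.symm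
  have h2 := LL_mk f w.toList (f (of w.head))
  have h3 : (Th f g).left = act f (f (of w.head))
      (Th f (w.toList.map (fun x => t ^ (x.1 : ℤ) * of x.2)).prod).left := by
    conv_lhs => rw [hp]
    rw [map_mul, SemidirectProduct.mul_left, Th_of, SemidirectProduct.left_inr,
      SemidirectProduct.right_inr, one_mul]
  rw [← h3, h1] at h2
  have h4 := LL_red f hf w.toList (f (of w.head)) w.chain
  have h5 : LL f (f (of w.head)) w.toList = [] := by
    have h6 := congrArg FreeGroup.toWord h2
    rw [FreeGroup.toWord_one, FreeGroup.toWord_mk, h4.reduce_eq] at h6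
    exact h6.symm
  have h7 : w.toList = [] := by
    cases hl : w.toList with
    | nil => rfl
    | cons x l =>
      rw [hl] at h5
      obtain ⟨u, k⟩ := x
      simp [LL] at h5
  rw [h7, List.map_nil, List.prod_nil, mul_one] at hp
  apply hg
  rw [hp]
  have h8 : f (of w.head) = f (of 1) := by
    rw [← hp, map_one, map_one]
    exact hfg
  have h9 : w.head = 1 := hf h8
  rw [h9, map_one]

end Pool.Agent.H476RA
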