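import Mathlib
import Pool.Agent.Helper240.Amen.HB
import Pool.Agent.H476RA.Step
import Pool.Agent.H476RA.TaskA
import Pool.Agent.H476RA.TaskB
import Pool.Agent.H476RA.TaskC

set_option autoImplicit false

namespace Pool.Agent.H476RA

open Pool.Agent.Helper240.Amen HNNExtension

theorem exists_NN (B : Type) [Group B] (P R : Subgroup B) (φ : P ≃* R) (D : Type) [Group D]
    (f : HNNExtension B P R φ →* D) (hf : Function.Injective (f.comp HNNExtension.of))
    (g : HNNExtension B P R φ) (hg : g ≠ 1) : ∃ l, g ∉ NN f l := by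
  by_cases hF : g ∈ f.ker
  · obtain ⟨Y, θ, hθ⟩ := hnn_ker B P R φ D f hf g hg hF
    obtain ⟨l, hl⟩ := free_resid Y _ hθ
    refine ⟨l, ?_⟩
    rintro ⟨k, hk1, hk2⟩
    apply hl
    have h3 : θ k ∈ derivedSeries (FreeGroup Y) l :=
      map_derivedSeries_le_derivedSeries (f := θ) l ⟨k, hk1, rfl⟩
    have h4 : k = ⟨g, hF⟩ := Subtype.ext hk2
    rw [← h4]
    exact h3
  · exact ⟨0, fun h => hF (NN_le f 0 h)⟩

/-- extension of the class by solvable kernels -/
theorem ext_solv (W D : Type) [Group W] [Group D] (ρ : W →* D) (hρ : Group.IsSolvable ρ.ker)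
    (χ : D →* Multiplicative ℤ)
    (hχ : ∀ S : Finset D, (∀ s ∈ S, χ s = 1) → Group.IsSolvable (Subgroup.closure (S : Set D)))
    (S : Finset W) (hS : ∀ s ∈ S, (χ.comp ρ) s = 1) :
    Group.IsSolvable (Subgroup.closure (S : Set W)) := by
  classical
  have h1 : Group.IsSolvable (Subgroup.closure ((S.image ρ : Finset D) : Set D)) := by
    apply hχ
    intro s hs
    obtain ⟨x, hx, rfl⟩ := Finset.mem_image.mp hs
    exact hS x hx
  let P := Subgroup.closure (S : Set W)
  let g : P →* Subgroup.closure ((S.image ρ : Finset D) : Set D) :=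
    (ρ.comp P.subtype).codRestrict _ (by
      intro x
      have hx : ρ x ∈ P.map ρ := ⟨x, x.2, rfl⟩
      rw [MonoidHom.map_closure] at hx
      rw [Finset.coe_image]
      exact hx)
  have h3 : Group.IsSolvable g.ker := by
    let i : g.ker →* ρ.ker := ((P.subtype).comp g.ker.subtype).codRestrict _ (by
      intro x
      have := x.2
      rw [MonoidHom.mem_ker] at this
      exact congrArg Subtype.val this)
    apply Group.isSolvable_of_isSolvable_injective (f := i)
    intro x y hxy
    apply Subtype.ext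
    apply Subtype.ext
    exact congrArg (fun z : ρ.ker => (z : W)) hxy
  exact Group.isSolvable_of_ker_le_range g.ker.subtype g (by rw [Subgroup.range_subtype])

/-- a homomorphism to a group of the class gives an amenable quotient -/
theorem amen_quot (G A : Type) [Group G] [Group A] (F : G →* A) (χ : A →* Multiplicative ℤ)
    (hχ : ∀ S : Finset A, (∀ s ∈ S, χ s = 1) → Group.IsSolvable (Subgroup.closure (S : Set A)))
    (g : G) (hg : F g ≠ 1) :
    ∃ (Q : Type) (_ : Group Q) (ψ : G →* Q), Function.Surjective ψ ∧ Amenable Q ∧ ψ g ≠ 1 := by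
  refine ⟨G ⧸ NN F 0, inferInstance, QuotientGroup.mk' (NN F 0), QuotientGroup.mk'_surjective _,
    amen_of_locsolv _ (Multiplicative ℤ) (χ.comp (rh F 0)) (quot_solv F 0 χ hχ), ?_⟩
  rw [QuotientGroup.mk'_apply, Ne, QuotientGroup.eq_one_iff]
  exact fun h => hg (NN_le F 0 h)

end Pool.Agent.H476RA
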