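import Mathlib

/-!
Task T1 of project H476-RA (proved by helper192 for helper476): a wreath product in which a
partial isomorphism becomes a conjugation (Kaloujnine-Krasner embedding with functions on `D`).
-/

set_option autoImplicit false

namespace Pool.Agent.H476RA

namespace T1w

lemma pi_solvable (S : Type) [Group S] (D : Type) (h : Group.IsSolvable S) :
    Group.IsSolvable (D → S) := by
  obtain ⟨n, hn⟩ := (Group.isSolvable_def S).1 h
  refine (Group.isSolvable_def _).2 ⟨n, ?_⟩
  rw [eq_bot_iff]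
  intro F hF
  rw [Subgroup.mem_bot]
  funext d
  have h1 := map_derivedSeries_le_derivedSeries (Pi.evalMonoidHom (fun _ : D => S) d) n
  have h2 : F d ∈ derivedSeries S n := h1 (Subgroup.mem_map.2 ⟨F, hF, rfl⟩)
  rw [hn] at h2
  simpa using h2

lemma ker_solvable (S : Type) [Group S] (D : Type) [Group D] (h : Group.IsSolvable S) :
    Group.IsSolvable (RegularWreathProduct.rightHom : RegularWreathProduct S D →* D).ker := by
  have := pi_solvable S D h
  let g : (RegularWreathProduct.rightHom : RegularWreathProduct S D →* D).ker →* (D → S) :=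
    { toFun := fun w => w.1.left
      map_one' := rfl
      map_mul' := by
        rintro ⟨a, ha⟩ ⟨b, hb⟩
        have ha' : a.right = 1 := ha
        funext x
        simp [ha'] }
  have hg : Function.Injective g := by
    rintro ⟨a, ha⟩ ⟨b, hb⟩ hab
    have ha' : a.right = 1 := ha
    have hb' : b.right = 1 := hb
    apply Subtype.ext
    apply RegularWreathProduct.ext
    · exact hab
    · rw [ha', hb']
  exact Group.isSolvable_of_isSolvable_injective hg

variable {B D : Type} [Group B] [Group D]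

lemma exists_rep (H : Subgroup D) :
    ∃ r : D → D, (∀ h ∈ H, ∀ d, r (h * d) = r d) ∧ ∀ d, d * (r d)⁻¹ ∈ H := by
  refine ⟨fun d => (Quotient.mk (QuotientGroup.rightRel H) d).out, ?_, ?_⟩
  · intro h hh d
    have : Quotient.mk (QuotientGroup.rightRel H) (h * d) =
        Quotient.mk (QuotientGroup.rightRel H) d := by
      apply Quotient.sound
      apply QuotientGroup.rightRel_apply.2
      simpa using hh
    simp only [this]
  · intro d
    have h1 := Quotient.mk_out (s := QuotientGroup.rightRel H) d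
    exact QuotientGroup.rightRel_apply.1 h1

/-- the embedding of `B` given by a section -/
def io (f : B →* D) (r : D → D) (hr : ∀ b d, r (f b * d) = r d) (σ : D → B)
    (hσ : ∀ d, f (σ d) = d * (r d)⁻¹) : B →* RegularWreathProduct f.ker D where
  toFun b := ⟨fun d => ⟨(σ d)⁻¹ * b * σ ((f b)⁻¹ * d), by
    rw [MonoidHom.mem_ker, map_mul, map_mul, map_inv, hσ, hσ]
    have h1 : r ((f b)⁻¹ * d) = r d := by
      rw [← map_inv]
      exact hr b⁻¹ d
    rw [h1]
    group⟩, f b⟩
  map_one' := by
    apply RegularWreathProduct.ext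
    · funext d
      apply Subtype.ext
      simp
    · simp
  map_mul' a b := by
    apply RegularWreathProduct.ext
    · funext d
      apply Subtype.ext
      simp [mul_assoc]
    · simp

lemma conj_one (f : B →* D) (r : D → D) (hr : ∀ b d, r (f b * d) = r d) (σ : D → B)
    (hσ : ∀ d, f (σ d) = d * (r d)⁻¹) (P : Subgroup B) (hP : ∀ p ∈ P, f p = 1 → p = 1) :
    ∃ u : RegularWreathProduct f.ker D, ∀ p ∈ P,
      u * RegularWreathProduct.inl (f p) * u⁻¹ = io f r hr σ hσ p := by
  obtain ⟨r2, h1, h2⟩ := exists_rep (P.map f)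
  have h3 : ∀ d, ∃ p ∈ P, f p = d * (r2 d)⁻¹ := fun d => Subgroup.mem_map.1 (h2 d)
  choose q hq hfq using h3
  have h4 : ∀ d, r (r2 d) = r d := by
    intro d
    have : d = f (q d) * r2 d := by rw [hfq]; group
    conv_rhs => rw [this]
    exact (hr _ _).symm
  have h5 : ∀ p ∈ P, ∀ d, q ((f p)⁻¹ * d) * σ (r2 ((f p)⁻¹ * d)) = p⁻¹ * (q d * σ (r2 d)) := by
    intro p hp d
    have h6 : r2 ((f p)⁻¹ * d) = r2 d :=
      h1 _ (by rw [← map_inv]; exact Subgroup.mem_map_of_mem f (P.inv_mem hp)) d
    have h7 : q ((f p)⁻¹ * d) = p⁻¹ * q d := by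
      have h8 : (p⁻¹ * q d)⁻¹ * q ((f p)⁻¹ * d) = 1 := by
        apply hP
        · exact P.mul_mem (P.inv_mem (P.mul_mem (P.inv_mem hp) (hq d))) (hq _)
        · rw [map_mul, map_inv, map_mul, map_inv, hfq, hfq, h6]
          group
      exact (inv_mul_eq_one.1 h8).symm
    rw [h6, h7, mul_assoc]
  refine ⟨⟨fun d => ⟨(σ d)⁻¹ * (q d * σ (r2 d)), ?_⟩, 1⟩, ?_⟩
  · rw [MonoidHom.mem_ker, map_mul, map_mul, map_inv, hσ, hσ, hfq, h4]
    group
  · intro p hp
    apply RegularWreathProduct.ext
    · funext d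
      apply Subtype.ext
      simp only [RegularWreathProduct.mul_left, RegularWreathProduct.left_inl,
        RegularWreathProduct.mul_right, RegularWreathProduct.right_inl,
        RegularWreathProduct.inv_left, Pi.mul_apply, Pi.inv_apply, Pi.one_apply, mul_one, one_mul,
        Subgroup.coe_mul, Subgroup.coe_inv, io, MonoidHom.coe_mk, OneHom.coe_mk, h5 p hp d]
      group
    · simp [io]

end T1w

/-- T1 -/
theorem wreath_hnn (B : Type) [Group B] (P R : Subgroup B) (φ : P ≃* R) (D : Type) [Group D]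
    (f : B →* D) (hP : ∀ p ∈ P, f p = 1 → p = 1) (hR : ∀ p ∈ R, f p = 1 → p = 1) (τ : D)
    (hτ : ∀ p : P, τ * f p * τ⁻¹ = f (φ p)) (hs : Group.IsSolvable f.ker) :
    ∃ (W : Type) (_ : Group W) (ρ : W →* D) (ι : B →* W) (τ' : W),
      Group.IsSolvable ρ.ker ∧ Function.Injective ι ∧ (∀ b, ρ (ι b) = f b) ∧
      ∀ p : P, τ' * ι p * τ'⁻¹ = ι (φ p) := by
  obtain ⟨r, h1, h2⟩ := T1w.exists_rep f.range
  have hr : ∀ b d, r (f b * d) = r d := fun b d => h1 _ ⟨b, rfl⟩ d
  choose σ hσ using h2
  obtain ⟨u, hu⟩ := T1w.conj_one f r hr σ hσ P hP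
  obtain ⟨v, hv⟩ := T1w.conj_one f r hr σ hσ R hR
  refine ⟨RegularWreathProduct f.ker D, inferInstance, RegularWreathProduct.rightHom,
    T1w.io f r hr σ hσ, v * RegularWreathProduct.inl τ * u⁻¹, T1w.ker_solvable _ _ hs, ?_, ?_, ?_⟩
  · rw [injective_iff_map_eq_one]
    intro b hb
    have hb1 : f b = 1 := congrArg RegularWreathProduct.right hb
    have hb2 := congrFun (congrArg RegularWreathProduct.left hb) 1
    have hb3 := congrArg Subtype.val hb2
    simp only [T1w.io, MonoidHom.coe_mk, OneHom.coe_mk, hb1, inv_one, one_mul,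
      RegularWreathProduct.one_left, Pi.one_apply, Subgroup.coe_one] at hb3
    have : b = σ 1 * ((σ 1)⁻¹ * b * σ 1) * (σ 1)⁻¹ := by group
    rw [this, hb3]
    group
  · intro b
    rfl
  · intro p
    rw [← hu p p.2, ← hv (φ p) (φ p).2, ← hτ p, map_mul, map_mul, map_inv]
    group

end Pool.Agent.H476RA
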