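import Mathlib
import Pool.Agent.H476RA.Step

set_option autoImplicit false

namespace Pool.Agent.H476RA

open HNNExtension

theorem NN_anti {G D : Type} [Group G] [Group D] (F : G →* D) {l l' : ℕ} (h : l ≤ l') :
    NN F l' ≤ NN F l :=
  Subgroup.map_mono (derivedSeries_antitone _ h)

section

variable {B : Type} [Group B] {D : Type} [Group D] (f0 : B →* D)

/-- restriction of the quotient map to a subgroup -/
noncomputable def eqm (K : Subgroup B) (hK : ∀ p ∈ K, f0 p = 1 → p = 1) (l : ℕ) :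
    K ≃* K.map (QuotientGroup.mk' (NN f0 l)) :=
  MulEquiv.ofBijective ((QuotientGroup.mk' (NN f0 l)).subgroupMap K) ⟨by
    rw [injective_iff_map_eq_one]
    intro p hp
    have h1 : (QuotientGroup.mk' (NN f0 l)) (p : B) = 1 := congrArg Subtype.val hp
    rw [QuotientGroup.mk'_apply, QuotientGroup.eq_one_iff] at h1
    exact Subtype.ext (hK p p.2 (NN_le f0 l h1)),
    (QuotientGroup.mk' (NN f0 l)).subgroupMap_surjective K⟩

theorem eqm_coe (K : Subgroup B) (hK : ∀ p ∈ K, f0 p = 1 → p = 1) (l : ℕ) (p : K) :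
    ((eqm f0 K hK l p : K.map (QuotientGroup.mk' (NN f0 l))) : B ⧸ NN f0 l) =
      QuotientGroup.mk' (NN f0 l) p := rfl

theorem rh_mk (l : ℕ) (b : B) : rh f0 l (QuotientGroup.mk' (NN f0 l) b) = f0 b := rfl

theorem sep (hB : ∀ b : B, b ≠ 1 → f0 b = 1 → ∃ l, b ∉ NN f0 l) (K : Subgroup B)
    (hK : ∀ p ∈ K, f0 p = 1 → p = 1) (b : B) (hb : b ∉ K) :
    ∃ l0, ∀ l, l0 ≤ l → QuotientGroup.mk' (NN f0 l) b ∉ K.map (QuotientGroup.mk' (NN f0 l)) := by
  by_cases h : ∃ p ∈ K, f0 p = f0 b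
  · obtain ⟨p0, hp0, hp⟩ := h
    have h1 : p0⁻¹ * b ≠ 1 := by
      intro h2
      apply hb
      have : b = p0 := (inv_mul_eq_one.mp h2).symm
      rw [this]
      exact hp0
    obtain ⟨l0, hl0⟩ := hB _ h1 (by rw [map_mul, map_inv, hp, inv_mul_cancel])
    refine ⟨l0, fun l hl => ?_⟩
    rintro ⟨p, hpK, hpe⟩
    have h2 : p⁻¹ * b ∈ NN f0 l := by
      rw [← QuotientGroup.eq]
      exact hpe
    have h3 : f0 (p⁻¹ * p0) = 1 := by
      have h4 : f0 (p⁻¹ * b) = 1 := NN_le f0 l h2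
      rw [map_mul, map_inv] at h4 ⊢
      rw [hp]
      exact h4
    have h5 := hK _ (K.mul_mem (K.inv_mem hpK) hp0) h3
    have h6 : p = p0 := inv_mul_eq_one.mp h5
    rw [h6] at h2
    exact hl0 (NN_anti f0 hl h2)
  · refine ⟨0, fun l _ => ?_⟩
    rintro ⟨p, hpK, hpe⟩
    apply h
    refine ⟨p, hpK, ?_⟩
    have := congrArg (rh f0 l) hpe
    rwa [rh_mk, rh_mk] at this

theorem seplist (hB : ∀ b : B, b ≠ 1 → f0 b = 1 → ∃ l, b ∉ NN f0 l) (P R : Subgroup B)
    (hP : ∀ p ∈ P, f0 p = 1 → p = 1) (hR : ∀ p ∈ R, f0 p = 1 → p = 1) (L : List (ℤˣ × B)) :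
    ∃ l0, ∀ l, l0 ≤ l → ∀ x ∈ L,
      QuotientGroup.mk' (NN f0 l) x.2 ∈ toSubgroup (P.map (QuotientGroup.mk' (NN f0 l)))
        (R.map (QuotientGroup.mk' (NN f0 l))) x.1 → x.2 ∈ toSubgroup P R x.1 := by
  induction L with
  | nil => exact ⟨0, fun l _ x hx => by simp at hx⟩
  | cons y L ih =>
    obtain ⟨l1, h1⟩ := ih
    have h2 : ∃ l0, ∀ l, l0 ≤ l →
      QuotientGroup.mk' (NN f0 l) y.2 ∈ toSubgroup (P.map (QuotientGroup.mk' (NN f0 l)))
        (R.map (QuotientGroup.mk' (NN f0 l))) y.1 → y.2 ∈ toSubgroup P R y.1 := by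
      obtain ⟨u, b⟩ := y
      rcases Int.units_eq_one_or u with rfl | rfl
      · by_cases hb : b ∈ P
        · exact ⟨0, fun _ _ _ => hb⟩
        · obtain ⟨l0, hl0⟩ := sep f0 hB P hP b hb
          exact ⟨l0, fun l hl h => absurd h (hl0 l hl)⟩
      · by_cases hb : b ∈ R
        · exact ⟨0, fun _ _ _ => hb⟩
        · obtain ⟨l0, hl0⟩ := sep f0 hB R hR b hb
          exact ⟨l0, fun l hl h => absurd h (hl0 l hl)⟩
    obtain ⟨l2, h2⟩ := h2
    refine ⟨max l1 l2, fun l hl x hx => ?_⟩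
    rcases List.mem_cons.mp hx with rfl | hx
    · exact h2 l ((le_max_right _ _).trans hl)
    · exact h1 l ((le_max_left _ _).trans hl) x hx

end

theorem chain_imp {α : Type} {r s : α → α → Prop} (L : List α) (h : L.IsChain r)
    (hrs : ∀ x ∈ L, ∀ y ∈ L, r x y → s x y) : L.IsChain s := by
  induction L with
  | nil => exact List.isChain_nil
  | cons a L ih =>
    cases L with
    | nil => exact List.isChain_singleton _
    | cons b L =>
      rw [List.isChain_cons_cons] at h ⊢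
      refine ⟨hrs a (by simp) b (by simp) h.1, ih h.2 ?_⟩
      intro x hx y hy
      exact hrs x (List.mem_cons_of_mem _ hx) y (List.mem_cons_of_mem _ hy)

/-- T2 -/
theorem survive (B : Type) [Group B] (P R : Subgroup B) (φ : P ≃* R) (D : Type) [Group D]
    (f : HNNExtension B P R φ →* D) (hP : ∀ p ∈ P, f (of p) = 1 → p = 1)
    (hB : ∀ b : B, b ≠ 1 → f (of b) = 1 → ∃ l, b ∉ NN (f.comp of) l)
    (g : HNNExtension B P R φ) (hg : g ≠ 1) :
    ∃ (B' : Type) (_ : Group B') (P' R' : Subgroup B') (φ' : P' ≃* R') (q : B →* B')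
      (f' : B' →* D) (Q : HNNExtension B P R φ →* HNNExtension B' P' R' φ'),
      (∀ b, f' (q b) = f (of b)) ∧ Group.IsSolvable f'.ker ∧ (∀ p ∈ P', f' p = 1 → p = 1) ∧
      (∀ p ∈ R', f' p = 1 → p = 1) ∧ (∀ p : P', f t * f' p * (f t)⁻¹ = f' (φ' p)) ∧ Q g ≠ 1 := by
  have hR : ∀ p ∈ R, f (of p) = 1 → p = 1 := by
    intro r hr h
    have h1 := t_mul_of (φ := φ) (φ.symm ⟨r, hr⟩)
    rw [MulEquiv.apply_symm_apply] at h1
    have h2 := congrArg f h1
    rw [map_mul, map_mul] at h2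
    simp only at h2
    rw [h, one_mul] at h2
    have h3 := mul_eq_left.mp h2
    have h4 := hP _ (φ.symm ⟨r, hr⟩).2 h3
    have h5 : φ.symm ⟨r, hr⟩ = 1 := Subtype.ext h4
    have h6 : (⟨r, hr⟩ : R) = 1 := by
      rw [← MulEquiv.apply_symm_apply φ ⟨r, hr⟩, h5, map_one]
    exact congrArg Subtype.val h6
  obtain ⟨d⟩ := NormalWord.TransversalPair.nonempty B P R
  obtain ⟨w, hw⟩ := (NormalWord.equiv φ d).symm.surjective g
  have hw' : w.prod φ = g := hw
  have hp : g = of w.head * (w.toList.map (fun x => t ^ (x.1 : ℤ) * of x.2)).prod := hw'.symm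
  obtain ⟨l1, hl1⟩ := seplist (f.comp of) hB P R hP hR w.toList
  have hhead : ∃ l2, w.head ≠ 1 → ∀ l, l2 ≤ l → w.head ∉ NN (f.comp of) l := by
    by_cases h1 : w.head = 1
    · exact ⟨0, fun h => absurd h1 h⟩
    · by_cases h2 : f (of w.head) = 1
      · obtain ⟨l2, hl2⟩ := hB _ h1 h2
        exact ⟨l2, fun _ l hl h => hl2 (NN_anti _ hl h)⟩
      · exact ⟨0, fun _ l _ h => h2 (show f (of w.head) = 1 from NN_le (f.comp of) l h)⟩
  obtain ⟨l2, hl2⟩ := hhead
  let l := max l1 l2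
  let q := QuotientGroup.mk' (NN (f.comp of) l)
  let eP := eqm (f.comp of) P hP l
  let eR := eqm (f.comp of) R hR l
  let φ' : P.map q ≃* R.map q := eP.symm.trans (φ.trans eR)
  have hφ' : ∀ a : P, φ' (eP a) = eR (φ a) := by
    intro a
    show eR (φ (eP.symm (eP a))) = _
    rw [MulEquiv.symm_apply_apply]
  let Q : HNNExtension B P R φ →* HNNExtension (B ⧸ NN (f.comp of) l) (P.map q) (R.map q) φ' :=
    HNNExtension.lift (of.comp q) t (by
      intro a
      have h1 := t_mul_of (φ := φ') (eP a)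
      rw [hφ'] at h1
      exact h1)
  refine ⟨B ⧸ NN (f.comp of) l, inferInstance, P.map q, R.map q, φ', q, rh (f.comp of) l, Q,
    fun b => rfl, rh_ker_solv _ _, ?_, ?_, ?_, ?_⟩
  · rintro _ ⟨p, hp, rfl⟩ h
    have := hP p hp h
    rw [this, map_one]
  · rintro _ ⟨p, hp, rfl⟩ h
    have := hR p hp h
    rw [this, map_one]
  · intro p
    obtain ⟨a, rfl⟩ := eP.surjective p
    rw [hφ']
    show f t * f (of a) * (f t)⁻¹ = f (of (φ a))
    rw [← map_mul, t_mul_of, map_mul, mul_inv_cancel_right]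
  · intro hQ
    have hQof : ∀ b, Q (of b) = of (q b) := fun b => HNNExtension.lift_of _ _ _ b
    have hQt : Q t = t := HNNExtension.lift_t _ _ _
    let w' : NormalWord.ReducedWord (B ⧸ NN (f.comp of) l) (P.map q) (R.map q) :=
      { head := q w.head
        toList := w.toList.map (fun x => (x.1, q x.2))
        chain := by
          rw [List.isChain_map]
          apply chain_imp _ w.chain
          intro x hx y _ hxy hm
          exact hxy (hl1 l (le_max_left _ _) x hx hm) }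
    have h1 : w'.prod φ' = Q g := by
      show of (q w.head) * ((w.toList.map (fun x => (x.1, q x.2))).map
        (fun x => t ^ (x.1 : ℤ) * of x.2)).prod = _
      rw [hp, map_mul, hQof, map_list_prod, List.map_map, List.map_map]
      congr 2
      apply List.map_congr_left
      intro x _
      show _ = Q (t ^ (x.1 : ℤ) * of x.2)
      rw [map_mul, map_zpow, hQt, hQof]
      rfl
    have h2 := ReducedWord.toList_eq_nil_of_mem_of_range φ' w' (by
      rw [h1, hQ]; exact Subgroup.one_mem _)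
    have h3 : w.toList = [] := List.map_eq_nil_iff.mp h2
    rw [h3, List.map_nil, List.prod_nil, mul_one] at hp
    have h4 : q w.head = 1 := by
      apply HNNExtension.of_injective (φ := φ')
      rw [← hQof, ← hp, hQ, map_one]
    have h5 : w.head ≠ 1 := by
      intro h
      apply hg
      rw [hp, h, map_one]
    apply hl2 h5 l (le_max_right _ _)
    exact (QuotientGroup.eq_one_iff _).mp h4

end Pool.Agent.H476RA
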