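import Mathlib
import Pool.Agent.H476RA.Crit
import Pool.Agent.H476RA.TaskT2
import Pool.Agent.H476RA.TaskT1

set_option autoImplicit false

namespace Pool.Agent.H476RA

open Pool.Agent.Helper240.Amen HNNExtension

/-- the criterion -/
theorem hnn_resid (B : Type) [Group B] (P R : Subgroup B) (φ : P ≃* R) (D : Type) [Group D]
    (χ : D →* Multiplicative ℤ)
    (hχ : ∀ S : Finset D, (∀ s ∈ S, χ s = 1) → Group.IsSolvable (Subgroup.closure (S : Set D)))
    (f : HNNExtension B P R φ →* D) (hP : ∀ p ∈ P, f (of p) = 1 → p = 1)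
    (hB : ∀ b : B, b ≠ 1 → f (of b) = 1 → ∃ l, b ∉ NN (f.comp of) l)
    (g : HNNExtension B P R φ) (hg : g ≠ 1) :
    ∃ (A : Type) (_ : Group A) (F : HNNExtension B P R φ →* A) (χ' : A →* Multiplicative ℤ),
      (∀ S : Finset A, (∀ s ∈ S, χ' s = 1) → Group.IsSolvable (Subgroup.closure (S : Set A))) ∧
      F g ≠ 1 := by
  obtain ⟨B', _, P', R', φ', q, f', Q, h1, h2, h3, h4, h5, h6⟩ :=
    survive B P R φ D f hP hB g hg
  obtain ⟨W, _, ρ, ι, τ', k1, k2, k3, k4⟩ := wreath_hnn B' P' R' φ' D f' h3 h4 (f t) h5 h2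
  have hx : ∀ a : P', τ' * ι a = ι (φ' a) * τ' := by
    intro a
    have := k4 a
    rw [← this, inv_mul_cancel_right]
  let F' : HNNExtension B' P' R' φ' →* W := HNNExtension.lift ι τ' hx
  have hF' : Function.Injective (F'.comp HNNExtension.of) := by
    intro x y hxy
    apply k2
    have e : ∀ b, (F'.comp HNNExtension.of) b = ι b := fun b => HNNExtension.lift_of ι τ' hx b
    rwa [e, e] at hxy
  obtain ⟨l, hl⟩ := exists_NN B' P' R' φ' W F' hF' (Q g) h6
  refine ⟨HNNExtension B' P' R' φ' ⧸ NN F' l, inferInstance,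
    (QuotientGroup.mk' (NN F' l)).comp Q, (χ.comp ρ).comp (rh F' l),
    quot_solv F' l (χ.comp ρ) (ext_solv W D ρ k1 χ hχ), ?_⟩
  rw [MonoidHom.comp_apply, QuotientGroup.mk'_apply, Ne, QuotientGroup.eq_one_iff]
  exact hl

end Pool.Agent.H476RA
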