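import Mathlib

set_option autoImplicit false

namespace Pool.Agent.H476RA

open HNNExtension

/-- the relator -/
def rel3 (m n κ : ℤ) : FreeGroup (Fin 2) :=
  (FreeGroup.of 1 * FreeGroup.of 0 ^ κ * (FreeGroup.of 1)⁻¹) * FreeGroup.of 0 ^ m *
    (FreeGroup.of 1 * FreeGroup.of 0 ^ κ * (FreeGroup.of 1)⁻¹)⁻¹ * (FreeGroup.of 0 ^ n)⁻¹

namespace T3

/-- the map from the integers -/
def toZ {G : Type} [Group G] (x : G) : Multiplicative ℤ →* Subgroup.zpowers x where
  toFun k := ⟨x ^ (Multiplicative.toAdd k), Subgroup.zpow_mem_zpowers x _⟩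
  map_one' := by
    apply Subtype.ext
    simp
  map_mul' a b := by
    apply Subtype.ext
    simp [zpow_add]

theorem toZ_bij {G : Type} [Group G] (x : G) (hx : ∀ i : ℤ, x ^ i = 1 → i = 0) :
    Function.Bijective (toZ x) := by
  constructor
  · rw [injective_iff_map_eq_one]
    intro k hk
    have h1 : x ^ (Multiplicative.toAdd k) = 1 := congrArg Subtype.val hk
    have h2 := hx _ h1
    exact Multiplicative.toAdd.injective h2
  · rintro ⟨y, hy⟩
    obtain ⟨i, rfl⟩ := Subgroup.mem_zpowers_iff.1 hy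
    exact ⟨Multiplicative.ofAdd i, rfl⟩

theorem zequiv {G : Type} [Group G] (x y : G) (hx : ∀ i : ℤ, x ^ i = 1 → i = 0)
    (hy : ∀ i : ℤ, y ^ i = 1 → i = 0) : ∃ φ : Subgroup.zpowers x ≃* Subgroup.zpowers y,
      ∀ (i : ℤ) (h : x ^ i ∈ Subgroup.zpowers x), ((φ ⟨x ^ i, h⟩ : Subgroup.zpowers y) : G) = y ^ i := by
  refine ⟨(MulEquiv.ofBijective (toZ x) (toZ_bij x hx)).symm.trans
    (MulEquiv.ofBijective (toZ y) (toZ_bij y hy)), ?_⟩
  intro i h
  have e : (MulEquiv.ofBijective (toZ x) (toZ_bij x hx)).symm ⟨x ^ i, h⟩ = Multiplicative.ofAdd i := by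
    rw [MulEquiv.symm_apply_eq]
    rfl
  rw [MulEquiv.trans_apply, e]
  rfl

/-- the generator -/
def al : Multiplicative ℤ := Multiplicative.ofAdd 1

theorem al_pow (k : ℤ) : al ^ k = Multiplicative.ofAdd k := by
  unfold al
  rw [← ofAdd_zsmul]
  simp

theorem inner {m n : ℤ} (φ0 : Subgroup.zpowers (al ^ m) ≃* Subgroup.zpowers (al ^ n))
    (hφ0 : ∀ (i : ℤ) (h : (al ^ m) ^ i ∈ Subgroup.zpowers (al ^ m)),
      ((φ0 ⟨(al ^ m) ^ i, h⟩ : Subgroup.zpowers (al ^ n)) : Multiplicative ℤ) = (al ^ n) ^ i)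
    {H : Type} [Group H] (a b : H) (h : b * a ^ m * b⁻¹ = a ^ n) :
    ∃ F : HNNExtension (Multiplicative ℤ) _ _ φ0 →* H, F t = b ∧
      ∀ k : Multiplicative ℤ, F (of k) = a ^ (Multiplicative.toAdd k) := by
  have hal : zpowersHom H a al = a := by
    rw [zpowersHom_apply]
    simp [al]
  refine ⟨HNNExtension.lift (zpowersHom H a) b ?_, HNNExtension.lift_t _ _ _, ?_⟩
  · rintro ⟨p, hp⟩
    obtain ⟨i, rfl⟩ := Subgroup.mem_zpowers_iff.1 hp
    rw [hφ0 i hp]
    show b * zpowersHom H a ((al ^ m) ^ i) = _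
    rw [map_zpow, map_zpow, map_zpow, map_zpow, hal, ← h, conj_zpow]
    group
  · intro k
    rw [HNNExtension.lift_of, zpowersHom_apply]

theorem outer {B : Type} [Group B] {x y : B} (φ : Subgroup.zpowers x ≃* Subgroup.zpowers y)
    (hφ : ∀ (i : ℤ) (h : x ^ i ∈ Subgroup.zpowers x),
      ((φ ⟨x ^ i, h⟩ : Subgroup.zpowers y) : B) = y ^ i)
    {H : Type} [Group H] (F : B →* H) (s : H) (h : s * F x * s⁻¹ = F y) :
    ∃ F' : HNNExtension B _ _ φ →* H, F' t = s ∧ ∀ b : B, F' (of b) = F b := by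
  refine ⟨HNNExtension.lift F s ?_, HNNExtension.lift_t _ _ _, ?_⟩
  · rintro ⟨p, hp⟩
    obtain ⟨i, rfl⟩ := Subgroup.mem_zpowers_iff.1 hp
    rw [hφ i hp]
    show s * F (x ^ i) = _
    rw [map_zpow, map_zpow, ← h, conj_zpow]
    group
  · intro b
    rw [HNNExtension.lift_of]

end T3

open T3 in
/-- T3 -/
theorem model3 (m n κ : ℤ) (hm : m ≠ 0) (hn : n ≠ 0) (hκ : κ ≠ 0) (D : Type) [Group D] (a τ : D)
    (h1 : (τ * a ^ κ * τ⁻¹) * a ^ m * (τ * a ^ κ * τ⁻¹)⁻¹ = a ^ n)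
    (h2 : ∀ i j : ℤ, (τ * a ^ κ * τ⁻¹) ^ i * a ^ j = 1 → i = 0 ∧ j = 0) :
    ∃ (B0 : Type) (_ : Group B0) (P0 R0 : Subgroup B0) (φ0 : P0 ≃* R0)
      (P R : Subgroup (HNNExtension B0 P0 R0 φ0)) (φ : P ≃* R)
      (Ψ : PresentedGroup ({rel3 m n κ} : Set (FreeGroup (Fin 2))) →*
        HNNExtension (HNNExtension B0 P0 R0 φ0) P R φ)
      (f : HNNExtension (HNNExtension B0 P0 R0 φ0) P R φ →* D),
      Function.Injective Ψ ∧ (∀ b : B0, f (of (of b)) = 1 → b = 1) ∧
        ∀ p ∈ P, f (of p) = 1 → p = 1 := by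
  have halinf : ∀ k : ℤ, k ≠ 0 → ∀ i : ℤ, (al ^ k) ^ i = 1 → i = 0 := by
    intro k hk i hi
    rw [← zpow_mul, al_pow] at hi
    have h3 : k * i = 0 := Multiplicative.ofAdd.injective hi
    exact (mul_eq_zero.1 h3).resolve_left hk
  obtain ⟨φ0, hφ0⟩ := zequiv (al ^ m) (al ^ n) (halinf m hm) (halinf n hn)
  obtain ⟨F0, hF0t, hF0⟩ := inner φ0 hφ0 a (τ * a ^ κ * τ⁻¹) h1
  have hxF : F0 (of (al ^ κ)) = a ^ κ := by
    rw [hF0, al_pow]
    rfl
  have hx : ∀ i : ℤ, (of (al ^ κ) : HNNExtension (Multiplicative ℤ) _ _ φ0) ^ i = 1 → i = 0 := by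
    intro i hi
    have h3 := congrArg F0 hi
    rw [map_zpow, hxF, map_one, ← zpow_mul] at h3
    have h4 := (h2 0 (κ * i) (by rw [zpow_zero, one_mul]; exact h3)).2
    exact (mul_eq_zero.1 h4).resolve_left hκ
  have hy : ∀ i : ℤ, (t : HNNExtension (Multiplicative ℤ) _ _ φ0) ^ i = 1 → i = 0 := by
    intro i hi
    have h3 := congrArg F0 hi
    rw [map_zpow, hF0t, map_one] at h3
    exact (h2 i 0 (by rw [zpow_zero, mul_one]; exact h3)).1
  obtain ⟨φ, hφ⟩ := zequiv (of (al ^ κ) : HNNExtension (Multiplicative ℤ) _ _ φ0) t hx hy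
  obtain ⟨f, hft, hf⟩ := outer φ hφ F0 τ (by rw [hxF, hF0t])
  -- the relation in the presented group
  have hrel : ((PresentedGroup.of 1 : PresentedGroup ({rel3 m n κ} : Set (FreeGroup (Fin 2)))) *
      PresentedGroup.of 0 ^ κ * (PresentedGroup.of 1)⁻¹) * PresentedGroup.of 0 ^ m *
      (PresentedGroup.of 1 * PresentedGroup.of 0 ^ κ * (PresentedGroup.of 1)⁻¹)⁻¹ =
      PresentedGroup.of 0 ^ n := by
    have h : (PresentedGroup.mk ({rel3 m n κ} : Set (FreeGroup (Fin 2)))) (rel3 m n κ) = 1 :=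
      PresentedGroup.one_of_mem (Set.mem_singleton _)
    have h' : (PresentedGroup.mk ({rel3 m n κ} : Set (FreeGroup (Fin 2)))) (rel3 m n κ) =
      ((PresentedGroup.of 1 : PresentedGroup ({rel3 m n κ} : Set (FreeGroup (Fin 2)))) *
      PresentedGroup.of 0 ^ κ * (PresentedGroup.of 1)⁻¹) * PresentedGroup.of 0 ^ m *
      (PresentedGroup.of 1 * PresentedGroup.of 0 ^ κ * (PresentedGroup.of 1)⁻¹)⁻¹ *
      (PresentedGroup.of 0 ^ n)⁻¹ := rfl
    rw [h'] at h
    exact mul_inv_eq_one.1 h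
  obtain ⟨L0, hL0t, hL0⟩ := inner φ0 hφ0 (PresentedGroup.of 0 : PresentedGroup ({rel3 m n κ} : Set (FreeGroup (Fin 2)))) _ hrel
  have hxL : L0 (of (al ^ κ)) = PresentedGroup.of 0 ^ κ := by
    rw [hL0, al_pow]
    rfl
  obtain ⟨L, hLt, hL⟩ := outer φ hφ L0 (PresentedGroup.of 1) (by rw [hxL, hL0t])
  -- the relation in the HNN extension
  have hκt : (t : HNNExtension (HNNExtension (Multiplicative ℤ) _ _ φ0) _ _ φ) *
      (of (of al)) ^ κ * (t)⁻¹ = of t := by
    have h := HNNExtension.equiv_eq_conj (φ := φ)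
      (⟨of (al ^ κ), Subgroup.mem_zpowers _⟩ : Subgroup.zpowers (of (al ^ κ)))
    rw [← map_zpow, ← map_zpow, ← h]
    congr 1
    have h3 := hφ 1 (by rw [zpow_one]; exact Subgroup.mem_zpowers _)
    simp only [zpow_one] at h3
    exact h3
  have hmt : (t : HNNExtension (Multiplicative ℤ) _ _ φ0) * (of al) ^ m * (t)⁻¹ = (of al) ^ n := by
    have h := HNNExtension.equiv_eq_conj (φ := φ0)
      (⟨al ^ m, Subgroup.mem_zpowers _⟩ : Subgroup.zpowers (al ^ m))
    rw [← map_zpow, ← map_zpow, ← h]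
    congr 1
    have h3 := hφ0 1 (by rw [zpow_one]; exact Subgroup.mem_zpowers _)
    simp only [zpow_one] at h3
    exact h3
  let v : Fin 2 → HNNExtension (HNNExtension (Multiplicative ℤ) _ _ φ0) _ _ φ := ![of (of al), t]
  have hv : ∀ r ∈ ({rel3 m n κ} : Set (FreeGroup (Fin 2))), FreeGroup.lift v r = 1 := by
    intro r hr
    rw [Set.mem_singleton_iff] at hr
    subst hr
    unfold rel3
    simp only [map_mul, map_inv, map_zpow, FreeGroup.lift_apply_of]
    have hv0 : v 0 = of (of al) := rfl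
    have hv1 : v 1 = t := rfl
    rw [hv0, hv1, hκt, ← map_zpow, ← map_inv, ← map_mul, ← map_mul, hmt,
      mul_inv_eq_one]
    exact map_zpow _ _ _
  refine ⟨Multiplicative ℤ, inferInstance, _, _, φ0, _, _, φ, PresentedGroup.toGroup hv, f, ?_, ?_, ?_⟩
  · have hid : L.comp (PresentedGroup.toGroup hv) = MonoidHom.id _ := by
      apply PresentedGroup.ext
      intro i
      fin_cases i
      · show L (PresentedGroup.toGroup hv (PresentedGroup.of 0)) = PresentedGroup.of 0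
        rw [PresentedGroup.toGroup.of hv]
        show L (of (of al)) = PresentedGroup.of 0
        rw [hL, hL0]
        simp [al]
      · show L (PresentedGroup.toGroup hv (PresentedGroup.of 1)) = PresentedGroup.of 1
        rw [PresentedGroup.toGroup.of hv]
        exact hLt
    intro x y hxy
    have hx := DFunLike.congr_fun hid x
    have hy := DFunLike.congr_fun hid y
    rw [MonoidHom.comp_apply, MonoidHom.id_apply] at hx hy
    rw [← hx, ← hy, hxy]
  · intro b hb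
    rw [hf, hF0] at hb
    have h3 := (h2 0 (Multiplicative.toAdd b) (by rw [zpow_zero, one_mul]; exact hb)).2
    exact Multiplicative.toAdd.injective h3
  · intro p hp hfp
    obtain ⟨i, rfl⟩ := Subgroup.mem_zpowers_iff.1 hp
    rw [hf, map_zpow, hxF, ← zpow_mul] at hfp
    have h3 := (h2 0 (κ * i) (by rw [zpow_zero, one_mul]; exact hfp)).2
    have h4 := (mul_eq_zero.1 h3).resolve_left hκ
    rw [h4, zpow_zero]

end Pool.Agent.H476RA
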