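import Mathlib

set_option autoImplicit false

namespace Pool.Agent.H476RA

namespace T4

/-- the space -/
abbrev X : Type := ℤ → ℚ

/-- triangular maps supported in `[p, q]` -/
def Tri (p q : ℤ) (g : X → X) : Prop :=
  (∀ x j, (j < p ∨ q < j) → g x j = x j) ∧
    ∀ j x x', (∀ i < j, x i = x' i) → g x j - x j = g x' j - x' j

theorem Tri.agree {p q : ℤ} {g : X → X} (h : Tri p q g) {j : ℤ} {x x' : X}
    (hx : ∀ i < j, x i = x' i) : ∀ i < j, g x i = g x' i := by
  intro i hi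
  have h1 := h.2 i x x' (fun l hl => hx l (by omega))
  have h2 := hx i hi
  linarith

theorem Tri.comp {p q : ℤ} {g h : X → X} (hg : Tri p q g) (hh : Tri p q h) :
    Tri p q (fun x => g (h x)) := by
  refine ⟨fun x j hj => (hg.1 _ j hj).trans (hh.1 _ j hj), fun j x x' hx => ?_⟩
  have h1 := hh.2 j x x' hx
  have h2 := hg.2 j (h x) (h x') (hh.agree hx)
  change g (h x) j - x j = g (h x') j - x' j
  linarith

theorem Tri.mono {p q p' q' : ℤ} {g : X → X} (hg : Tri p q g) (hp : p' ≤ p) (hq : q ≤ q') :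
    Tri p' q' g :=
  ⟨fun x j hj => hg.1 x j (by omega), hg.2⟩

theorem Tri.id (p q : ℤ) : Tri p q (fun x => x) :=
  ⟨fun _ _ _ => rfl, fun _ _ _ _ => by simp⟩

/-- the triangular group -/
def T (p q : ℤ) : Subgroup (Equiv.Perm X) where
  carrier := {g | Tri p q g ∧ Tri p q g.symm}
  mul_mem' := fun ha hb => ⟨ha.1.comp hb.1, hb.2.comp ha.2⟩
  one_mem' := ⟨Tri.id p q, Tri.id p q⟩
  inv_mem' := fun ha => ⟨ha.2, ha.1⟩

theorem mem_T {p q : ℤ} {g : Equiv.Perm X} : g ∈ T p q ↔ Tri p q g ∧ Tri p q g.symm := Iff.rfl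

theorem T_mono {p q p' q' : ℤ} (hp : p' ≤ p) (hq : q ≤ q') : T p q ≤ T p' q' :=
  fun _ h => ⟨h.1.mono hp hq, h.2.mono hp hq⟩

/-- the first coordinate -/
def fc (p q : ℤ) : T p q →* Multiplicative (X → ℚ) where
  toFun g := Multiplicative.ofAdd (fun x => (g : Equiv.Perm X) x p - x p)
  map_one' := by
    rw [← ofAdd_zero]
    congr 1
    funext x
    simp
  map_mul' a b := by
    rw [← ofAdd_add]
    congr 1
    funext x
    have h1 := a.2.1.2 p ((b : Equiv.Perm X) x) x (fun i hi => b.2.1.1 x i (Or.inl hi))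
    change (a : Equiv.Perm X) ((b : Equiv.Perm X) x) p - x p =
      ((a : Equiv.Perm X) x p - x p) + ((b : Equiv.Perm X) x p - x p)
    linarith

theorem solv (n : ℕ) : ∀ p q : ℤ, (q + 1 - p).toNat = n → Group.IsSolvable (T p q) := by
  induction n with
  | zero =>
    intro p q h
    have hpq : q < p := by omega
    apply Group.isSolvable_of_comm
    intro a b
    have h1 : ∀ c : T p q, c = 1 := by
      intro c
      apply Subtype.ext
      apply Equiv.ext
      intro x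
      funext j
      exact c.2.1.1 x j (by omega)
    rw [h1 a, h1 b]
  | succ n ih =>
    intro p q h
    have h0 : Group.IsSolvable (T (p + 1) q) := ih (p + 1) q (by omega)
    let inc : T (p + 1) q →* T p q := Subgroup.inclusion (T_mono (by omega) le_rfl)
    refine Group.isSolvable_of_ker_le_range inc (fc p q) ?_
    intro g hg
    rw [MonoidHom.mem_ker] at hg
    have key : ∀ c : T p q, fc p q c = 1 → Tri (p + 1) q (c : Equiv.Perm X) := by
      intro c hc
      refine ⟨fun x j hj => ?_, c.2.1.2⟩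
      by_cases hjp : j = p
      · subst hjp
        have := congrFun (congrArg Multiplicative.toAdd hc) x
        change (c : Equiv.Perm X) x j - x j = 0 at this
        linarith
      · exact c.2.1.1 x j (by omega)
    have hg' : fc p q g⁻¹ = 1 := by rw [map_inv, hg, inv_one]
    exact ⟨⟨g.1, key g hg, key g⁻¹ hg'⟩, rfl⟩

/-- vanishing below `k - 1` -/
def Z (k : ℤ) (x : X) : Prop := ∀ j < k - 1, x j = 0

/-- the value -/
def g0 (ρ r : ℚ) : ℚ := if ((⌊r⌋ : ℤ) : ℚ) = r then ρ ^ (-⌊r⌋) else 0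

theorem g0_succ (ρ r : ℚ) (hρ : ρ ≠ 0) : g0 ρ r = ρ * g0 ρ (r + 1) := by
  unfold g0
  rw [Int.floor_add_one]
  by_cases h : ((⌊r⌋ : ℤ) : ℚ) = r
  · rw [if_pos h, if_pos (by push_cast; rw [h]),
      show -⌊r⌋ = 1 + -(⌊r⌋ + 1) by ring, zpow_add₀ hρ, zpow_one]
  · rw [if_neg h, if_neg (fun h' => h (by push_cast at h'; linarith)), mul_zero]

/-- the coefficient -/
noncomputable def f (ρ : ℚ) (k : ℤ) (x : X) : ℚ :=
  open Classical in if Z k x then g0 ρ (x (k - 1)) else 0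

theorem f_eq (ρ : ℚ) {k l : ℤ} {x x' : X} (h : Z k x ↔ Z l x')
    (h' : x (k - 1) = x' (l - 1)) : f ρ k x = f ρ l x' := by
  classical
  unfold f
  rw [h']
  by_cases h0 : Z k x
  · rw [if_pos h0, if_pos (h.1 h0)]
  · rw [if_neg h0, if_neg (fun h1 => h0 (h.2 h1))]

theorem f_congr (ρ : ℚ) {k : ℤ} {x x' : X} (h : ∀ i < k, x i = x' i) : f ρ k x = f ρ k x' := by
  apply f_eq
  · unfold Z
    exact forall₂_congr fun j hj => by rw [h j (by omega)]
  · exact h (k - 1) (by omega)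

theorem f_of (ρ : ℚ) {k : ℤ} {x : X} (h : ∀ j < k, x j = 0) : f ρ k x = 1 := by
  classical
  have hZ : Z k x := fun j hj => h j (by omega)
  unfold f
  rw [if_pos hZ, h (k - 1) (by omega)]
  simp [g0]

/-- the elementary maps -/
noncomputable def yf (ρ : ℚ) (k : ℤ) (c : ℚ) (x : X) : X :=
  Function.update x k (x k + c * f ρ k x)

theorem yf_same (ρ : ℚ) (k : ℤ) (c : ℚ) (x : X) : yf ρ k c x k = x k + c * f ρ k x :=
  Function.update_self _ _ _

theorem yf_ne (ρ : ℚ) (k : ℤ) (c : ℚ) (x : X) {j : ℤ} (hj : j ≠ k) : yf ρ k c x j = x j :=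
  Function.update_of_ne hj _ _

theorem yf_yf (ρ : ℚ) (k : ℤ) (c d : ℚ) (x : X) : yf ρ k c (yf ρ k d x) = yf ρ k (c + d) x := by
  funext j
  by_cases hj : j = k
  · subst hj
    rw [yf_same, yf_same, yf_same, f_congr ρ (x := yf ρ j d x) (x' := x)
      (fun i hi => yf_ne _ _ _ _ hi.ne)]
    ring
  · rw [yf_ne _ _ _ _ hj, yf_ne _ _ _ _ hj, yf_ne _ _ _ _ hj]

theorem yf_zero (ρ : ℚ) (k : ℤ) (x : X) : yf ρ k 0 x = x := by
  funext j
  by_cases hj : j = k
  · subst hj
    rw [yf_same]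
    ring
  · rw [yf_ne _ _ _ _ hj]

/-- the elementary permutations -/
noncomputable def y (ρ : ℚ) (k : ℤ) (c : ℚ) : Equiv.Perm X where
  toFun := yf ρ k c
  invFun := yf ρ k (-c)
  left_inv x := by rw [yf_yf, neg_add_cancel, yf_zero]
  right_inv x := by rw [yf_yf, add_neg_cancel, yf_zero]

theorem y_app (ρ : ℚ) (k : ℤ) (c : ℚ) (x : X) : y ρ k c x = yf ρ k c x := rfl

/-- as a homomorphism -/
noncomputable def yh (ρ : ℚ) (k : ℤ) : Multiplicative ℚ →* Equiv.Perm X where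
  toFun c := y ρ k (Multiplicative.toAdd c)
  map_one' := by
    ext1 x
    exact yf_zero ρ k x
  map_mul' a b := by
    ext1 x
    exact (yf_yf ρ k _ _ x).symm

theorem y_zpow (ρ : ℚ) (k : ℤ) (c : ℚ) (i : ℤ) : y ρ k c ^ i = y ρ k (i * c) := by
  have h := map_zpow (yh ρ k) (Multiplicative.ofAdd c) i
  rw [← ofAdd_zsmul] at h
  have h1 : yh ρ k (Multiplicative.ofAdd c) = y ρ k c := rfl
  have h2 : yh ρ k (Multiplicative.ofAdd (i • c)) = y ρ k (i • c) := rfl
  rw [h1, h2, zsmul_eq_mul] at h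
  exact h.symm

theorem tri_yf (ρ : ℚ) (k : ℤ) (c : ℚ) : Tri k k (yf ρ k c) := by
  refine ⟨fun x j hj => yf_ne _ _ _ _ (by omega), fun j x x' hx => ?_⟩
  by_cases hj : j = k
  · subst hj
    rw [yf_same, yf_same, f_congr ρ hx]
    ring
  · rw [yf_ne _ _ _ _ hj, yf_ne _ _ _ _ hj, sub_self, sub_self]

theorem y_mem (ρ : ℚ) (k : ℤ) (c : ℚ) : y ρ k c ∈ T k k := ⟨tri_yf ρ k c, tri_yf ρ k (-c)⟩

/-- the conjugation relation -/
theorem y_conj (ρ : ℚ) (hρ : ρ ≠ 0) (k : ℤ) (c : ℚ) :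
    y ρ (k - 1) 1 * y ρ k c * (y ρ (k - 1) 1)⁻¹ = y ρ k (ρ * c) := by
  rw [mul_inv_eq_iff_eq_mul]
  ext1 x
  change yf ρ (k - 1) 1 (yf ρ k c x) = yf ρ k (ρ * c) (yf ρ (k - 1) 1 x)
  funext j
  have h1 : f ρ (k - 1) (yf ρ k c x) = f ρ (k - 1) x :=
    f_congr ρ fun i hi => yf_ne _ _ _ _ (by omega)
  have h2 : f ρ k x = ρ * f ρ k (yf ρ (k - 1) 1 x) := by
    classical
    have h3 : Z k (yf ρ (k - 1) 1 x) ↔ Z k x :=
      forall₂_congr fun j hj => by rw [yf_ne _ _ _ _ (by omega)]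
    unfold f
    by_cases h0 : Z k x
    · have h4 : yf ρ (k - 1) 1 x (k - 1) = x (k - 1) + 1 := by
        rw [yf_same, f_of ρ h0, one_mul]
      rw [if_pos h0, if_pos (h3.2 h0), h4]
      exact g0_succ ρ _ hρ
    · rw [if_neg h0, if_neg (fun h => h0 (h3.1 h)), mul_zero]
  by_cases hj : j = k
  · subst hj
    rw [yf_ne _ _ _ _ (by omega : j ≠ j - 1), yf_same, yf_same,
      yf_ne _ _ _ _ (by omega : j ≠ j - 1), h2]
    ring
  · by_cases hj' : j = k - 1
    · rw [yf_ne ρ k _ _ hj, hj', yf_same, yf_same, h1, yf_ne ρ k _ _ (by omega : k - 1 ≠ k)]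
    · rw [yf_ne _ _ _ _ hj', yf_ne _ _ _ _ hj, yf_ne _ _ _ _ hj, yf_ne _ _ _ _ hj']

/-- shifts -/
def sh : Multiplicative ℤ →* Equiv.Perm X where
  toFun z :=
    { toFun := fun x j => x (j + Multiplicative.toAdd z)
      invFun := fun x j => x (j - Multiplicative.toAdd z)
      left_inv := fun x => by funext j; simp
      right_inv := fun x => by funext j; simp }
  map_one' := by
    ext1 x
    funext j
    simp
  map_mul' a b := by
    ext1 x
    funext j
    simp only [toAdd_mul, Equiv.coe_fn_mk, Equiv.Perm.coe_mul, Function.comp_apply]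
    congr 1
    ring

theorem sh_app (z : Multiplicative ℤ) (x : X) (j : ℤ) :
    sh z x j = x (j + Multiplicative.toAdd z) := rfl

theorem sh_inv_app (z : Multiplicative ℤ) (x : X) (j : ℤ) :
    (sh z)⁻¹ x j = x (j - Multiplicative.toAdd z) := rfl

theorem tri_conj {p q : ℤ} {g : X → X} (hg : Tri p q g) (z : Multiplicative ℤ) :
    Tri (p - Multiplicative.toAdd z) (q - Multiplicative.toAdd z)
      (fun x => sh z (g ((sh z)⁻¹ x))) := by
  refine ⟨fun x j hj => ?_, fun j x x' hx => ?_⟩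
  · change sh z (g ((sh z)⁻¹ x)) j = x j
    rw [sh_app, hg.1 _ _ (by omega), sh_inv_app]
    congr 1
    ring
  · change sh z (g ((sh z)⁻¹ x)) j - x j = sh z (g ((sh z)⁻¹ x')) j - x' j
    rw [sh_app, sh_app]
    have h1 := hg.2 (j + Multiplicative.toAdd z) ((sh z)⁻¹ x) ((sh z)⁻¹ x') (fun i hi => by
      rw [sh_inv_app, sh_inv_app]
      exact hx _ (by omega))
    rw [sh_inv_app, sh_inv_app] at h1
    simpa using h1

theorem conj_mem {p q : ℤ} {g : Equiv.Perm X} (hg : g ∈ T p q) (z : Multiplicative ℤ) :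
    sh z * g * (sh z)⁻¹ ∈ T (p - Multiplicative.toAdd z) (q - Multiplicative.toAdd z) := by
  refine ⟨tri_conj hg.1 z, ?_⟩
  have := tri_conj hg.2 z
  exact this

theorem sh_y (ρ : ℚ) (k : ℤ) (c : ℚ) :
    sh (Multiplicative.ofAdd 1) * y ρ (k + 1) c * (sh (Multiplicative.ofAdd 1))⁻¹ = y ρ k c := by
  ext1 x
  funext j
  change (yf ρ (k + 1) c ((sh (Multiplicative.ofAdd 1))⁻¹ x)) (j + 1) = yf ρ k c x j
  by_cases hj : j = k
  · subst hj
    rw [yf_same, yf_same, sh_inv_app]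
    have h1 : f ρ (j + 1) ((sh (Multiplicative.ofAdd 1))⁻¹ x) = f ρ j x := by
      apply f_eq
      · constructor
        · intro h i hi
          have := h (i + 1) (by omega)
          rw [sh_inv_app] at this
          change x (i + 1 - 1) = 0 at this
          rwa [add_sub_cancel_right] at this
        · intro h i hi
          rw [sh_inv_app]
          exact h _ (by change i - 1 < _; omega)
      · rw [sh_inv_app]
        congr 1
        change j + 1 - 1 - 1 = _
        ring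
    rw [h1]
    change x (j + 1 - 1) + _ = _
    rw [add_sub_cancel_right]
  · rw [yf_ne _ _ _ _ hj, yf_ne _ _ _ _ (by omega), sh_inv_app]
    change x (j + 1 - 1) = _
    rw [add_sub_cancel_right]

/-- the group -/
def D : Subgroup (Equiv.Perm X × Multiplicative ℤ) where
  carrier := {d | ∃ p q, d.1 * (sh d.2)⁻¹ ∈ T p q}
  one_mem' := ⟨0, 0, by simp⟩
  mul_mem' := by
    rintro ⟨g, z⟩ ⟨g', z'⟩ ⟨p, q, h⟩ ⟨p', q', h'⟩
    refine ⟨min p (p' - Multiplicative.toAdd z), max q (q' - Multiplicative.toAdd z), ?_⟩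
    have h1 := conj_mem h' z
    have h2 : (g * g') * (sh (z * z'))⁻¹ = (g * (sh z)⁻¹) * (sh z * (g' * (sh z')⁻¹) * (sh z)⁻¹) := by
      rw [map_mul]
      group
    change (g * g') * (sh (z * z'))⁻¹ ∈ _
    rw [h2]
    exact mul_mem (T_mono (min_le_left _ _) (le_max_left _ _) h)
      (T_mono (min_le_right _ _) (le_max_right _ _) h1)
  inv_mem' := by
    rintro ⟨g, z⟩ ⟨p, q, h⟩
    have h1 := conj_mem (inv_mem h) z⁻¹
    refine ⟨p - Multiplicative.toAdd z⁻¹, q - Multiplicative.toAdd z⁻¹, ?_⟩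
    · change g⁻¹ * (sh z⁻¹)⁻¹ ∈ T (p - Multiplicative.toAdd z⁻¹) (q - Multiplicative.toAdd z⁻¹)
      have h2 : g⁻¹ * (sh z⁻¹)⁻¹ = sh z⁻¹ * (g * (sh z)⁻¹)⁻¹ * (sh z⁻¹)⁻¹ := by
        rw [map_inv]
        group
      rw [h2]
      exact h1

/-- first component -/
def fs : D →* Equiv.Perm X := (MonoidHom.fst _ _).comp D.subtype

/-- the character -/
def ch : D →* Multiplicative ℤ := (MonoidHom.snd _ _).comp D.subtype

theorem locsolv (S : Finset D) (hS : ∀ s ∈ S, ch s = 1) :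
    Group.IsSolvable (Subgroup.closure (S : Set D)) := by
  classical
  -- a common box
  have hbox : ∃ P Q : ℤ, ∀ s ∈ S, fs s ∈ T P Q := by
    induction S using Finset.induction_on with
    | empty => exact ⟨0, 0, by simp⟩
    | insert s S hs ih =>
      obtain ⟨P, Q, h⟩ := ih fun s hs' => hS s (Finset.mem_insert_of_mem hs')
      obtain ⟨p, q, h'⟩ := s.2
      have h1 : ch s = 1 := hS s (Finset.mem_insert_self _ _)
      have h2 : (s : Equiv.Perm X × Multiplicative ℤ).2 = 1 := h1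
      rw [h2, map_one, inv_one, mul_one] at h'
      refine ⟨min P p, max Q q, fun r hr => ?_⟩
      rcases Finset.mem_insert.1 hr with rfl | hr
      · exact T_mono (min_le_right _ _) (le_max_right _ _) h'
      · exact T_mono (min_le_left _ _) (le_max_left _ _) (h r hr)
  obtain ⟨P, Q, hPQ⟩ := hbox
  have hle : Subgroup.closure (S : Set D) ≤ (T P Q).comap fs ⊓ ch.ker := by
    rw [Subgroup.closure_le]
    intro s hs
    exact ⟨hPQ s hs, hS s hs⟩
  have hsol : Group.IsSolvable (T P Q) := solv _ P Q rfl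
  let ψ : Subgroup.closure (S : Set D) →* T P Q :=
    (fs.comp (Subgroup.closure (S : Set D)).subtype).codRestrict (T P Q)
      (fun x => (hle x.2).1)
  have hinj : Function.Injective ψ := by
    intro a b hab
    apply Subtype.ext
    apply Subtype.ext
    apply Prod.ext
    · exact congrArg Subtype.val hab
    · have h1 : ch a.1 = 1 := (hle a.2).2
      have h2 : ch b.1 = 1 := (hle b.2).2
      exact h1.trans h2.symm
  exact Group.isSolvable_of_isSolvable_injective hinj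

end T4

open T4 in
/-- T4: the amenable group -/
theorem exists_D3 (m n κ : ℤ) (hm : m ≠ 0) (hn : n ≠ 0) (hκ : κ ≠ 0) :
    ∃ (D : Type) (_ : Group D) (χ : D →* Multiplicative ℤ) (a τ : D),
      (∀ S : Finset D, (∀ s ∈ S, χ s = 1) → Group.IsSolvable (Subgroup.closure (S : Set D))) ∧
      (τ * a ^ κ * τ⁻¹) * a ^ m * (τ * a ^ κ * τ⁻¹)⁻¹ = a ^ n ∧
      ∀ i j : ℤ, (τ * a ^ κ * τ⁻¹) ^ i * a ^ j = 1 → i = 0 ∧ j = 0 := by
  have hm' : (m : ℚ) ≠ 0 := by exact_mod_cast hm
  have hn' : (n : ℚ) ≠ 0 := by exact_mod_cast hn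
  have hκ' : (κ : ℚ) ≠ 0 := by exact_mod_cast hκ
  obtain ⟨ρ, hρ⟩ : ∃ ρ : ℚ, ρ = n / m := ⟨_, rfl⟩
  have hρ0 : ρ ≠ 0 := by rw [hρ]; exact div_ne_zero hn' hm'
  let a : T4.D := ⟨(y ρ 1 (1 / κ), 1), 1, 1, by
    change y ρ 1 (1 / κ) * (sh 1)⁻¹ ∈ _
    rw [map_one, inv_one, mul_one]
    exact y_mem _ _ _⟩
  let τ : T4.D := ⟨(sh (Multiplicative.ofAdd 1), Multiplicative.ofAdd 1), 0, 0, by
    change sh (Multiplicative.ofAdd 1) * (sh (Multiplicative.ofAdd 1))⁻¹ ∈ _
    rw [mul_inv_cancel]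
    exact one_mem _⟩
  have hfa : ∀ j : ℤ, fs (a ^ j) = y ρ 1 (j / κ) := by
    intro j
    rw [map_zpow]
    change y ρ 1 (1 / κ) ^ j = _
    rw [y_zpow]
    congr 1
    ring
  have hca : ch a = 1 := rfl
  have hfb : fs (τ * a ^ κ * τ⁻¹) = y ρ 0 1 := by
    rw [map_mul, map_mul, map_inv, hfa, div_self hκ']
    exact sh_y ρ 0 1
  have hcb : ch (τ * a ^ κ * τ⁻¹) = 1 := by
    rw [map_mul, map_mul, map_inv, map_zpow, hca, one_zpow, mul_one, mul_inv_cancel]
  have hext : ∀ u v : T4.D, fs u = fs v → ch u = ch v → u = v := by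
    intro u v h1 h2
    exact Subtype.ext (Prod.ext h1 h2)
  refine ⟨T4.D, inferInstance, ch, a, τ, locsolv, ?_, ?_⟩
  · apply hext
    · rw [map_mul, map_mul, map_inv, hfb, hfa, hfa]
      have := y_conj ρ hρ0 1 (m / κ)
      rw [show (1 : ℤ) - 1 = 0 by norm_num] at this
      rw [this, hρ]
      congr 1
      field_simp
    · rw [map_mul, map_mul, map_inv, hcb, map_zpow, map_zpow, hca]
      simp
  · intro i j h
    have h1 := congrArg fs h
    rw [map_mul, map_zpow, hfb, hfa, y_zpow, map_one, mul_one] at h1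
    have h2 := congrFun (Equiv.congr_fun h1 (0 : X))
    have h3 : ∀ l : ℤ, yf ρ 0 (i : ℚ) (yf ρ 1 ((j : ℚ) / κ) 0) l = 0 := h2
    have hf1 : f ρ 1 (0 : X) = 1 := f_of ρ fun _ _ => rfl
    have hf0 : f ρ 0 (yf ρ 1 ((j : ℚ) / κ) 0) = 1 := f_of ρ fun l hl => by
      rw [yf_ne _ _ _ _ (by omega)]
      rfl
    have h4 := h3 0
    rw [yf_same, hf0, yf_ne _ _ _ _ (by norm_num)] at h4
    have h5 := h3 1
    rw [yf_ne _ _ _ _ (by norm_num), yf_same, hf1] at h5
    constructor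
    · have : (i : ℚ) = 0 := by simpa using h4
      exact_mod_cast this
    · have h6 : (j : ℚ) / κ = 0 := by simpa using h5
      have : (j : ℚ) = 0 := by
        rcases div_eq_zero_iff.1 h6 with h | h
        · exact h
        · exact absurd h hκ'
      exact_mod_cast this

end Pool.Agent.H476RA
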