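import Mathlib
import Pool.Agent.H476RA.Crit2
import Pool.Agent.H476RA.TaskT3
import Pool.Agent.H476RA.TaskT4

set_option autoImplicit false

namespace Pool.Agent.H476RA

open Pool.Agent.Helper240.Amen HNNExtension

theorem main3 (m n κ : ℤ) (hm : m ≠ 0) (hn : n ≠ 0) (hκ : κ ≠ 0)
    (g : PresentedGroup ({rel3 m n κ} : Set (FreeGroup (Fin 2)))) (hg : g ≠ 1) :
    ∃ (A : Type) (_ : Group A)
      (ψ : PresentedGroup ({rel3 m n κ} : Set (FreeGroup (Fin 2))) →* A),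
      Function.Surjective ψ ∧ Amenable A ∧ ψ g ≠ 1 := by
  obtain ⟨D, _, χ, a, τ, hχ, h1, h2⟩ := exists_D3 m n κ hm hn hκ
  obtain ⟨B0, _, P0, R0, φ0, P, R, φ, Ψ, f, hΨ, hf, hP⟩ := model3 m n κ hm hn hκ D a τ h1 h2
  have hinj : Function.Injective ((f.comp of).comp (of : B0 →* HNNExtension B0 P0 R0 φ0)) := by
    rw [injective_iff_map_eq_one]
    intro b hb
    exact hf b hb
  have hB : ∀ b : HNNExtension B0 P0 R0 φ0, b ≠ 1 → f (of b) = 1 →
      ∃ l, b ∉ NN (f.comp of) l := fun b hb _ => exists_NN B0 P0 R0 φ0 D (f.comp of) hinj b hb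
  obtain ⟨A, _, F, χ', hχ', hF⟩ := hnn_resid _ P R φ D χ hχ f hP hB (Ψ g)
    (fun h => hg (hΨ (by rw [h, map_one])))
  exact amen_quot _ A (F.comp Ψ) χ' hχ' g hF

end Pool.Agent.H476RA
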