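import Mathlib
import Pool.Agent.Helper240.Amen.HB

set_option autoImplicit false

namespace Pool.Agent.H476RA

open Pool.Agent.Helper240.Amen

/-- A: free groups are residually solvable -/
theorem free_resid (Y : Type) (w : FreeGroup Y) (hw : w ≠ 1) :
    ∃ l, w ∉ derivedSeries (FreeGroup Y) l := by
  sorry

/-- B: locally solvable by abelian groups are amenable -/
theorem amen_of_locsolv (Q A : Type) [Group Q] [CommGroup A] (χ : Q →* A)
    (h : ∀ S : Finset Q, (∀ s ∈ S, χ s = 1) → Group.IsSolvable (Subgroup.closure (S : Set Q))) :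
    Amenable Q := by
  sorry

/-- C: HNN extensions and kernels -/
theorem hnn_ker (B : Type) [Group B] (P R : Subgroup B) (φ : P ≃* R) (D : Type) [Group D]
    (f : HNNExtension B P R φ →* D) (hf : Function.Injective (f.comp HNNExtension.of))
    (g : HNNExtension B P R φ) (hg : g ≠ 1) (hfg : g ∈ f.ker) :
    ∃ (Y : Type) (θ : f.ker →* FreeGroup Y), θ ⟨g, hfg⟩ ≠ 1 := by
  sorry

/-- D: the amenable group -/
theorem exists_D (n κ : ℤ) (hn : n ≠ 0) (hκ : κ ≠ 0) :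
    ∃ (D : Type) (_ : Group D) (χ : D →* Multiplicative ℤ) (a τ : D),
      (∀ S : Finset D, (∀ s ∈ S, χ s = 1) → Group.IsSolvable (Subgroup.closure (S : Set D))) ∧
      (τ * a ^ κ * τ⁻¹) * a * (τ * a ^ κ * τ⁻¹)⁻¹ = a ^ n ∧
      ∀ i j : ℤ, (τ * a ^ κ * τ⁻¹) ^ i * a ^ j = 1 → i = 0 ∧ j = 0 := by
  sorry

/-- the relator -/
def rel (n κ : ℤ) : FreeGroup (Fin 2) :=
  (FreeGroup.of 1 * FreeGroup.of 0 ^ κ * (FreeGroup.of 1)⁻¹) * FreeGroup.of 0 *
    (FreeGroup.of 1 * FreeGroup.of 0 ^ κ * (FreeGroup.of 1)⁻¹)⁻¹ * (FreeGroup.of 0 ^ n)⁻¹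

/-- E: the one-relator group is an HNN extension of a group that embeds in `D` -/
theorem hnn_model (n κ : ℤ) (hn : n ≠ 0) (hκ : κ ≠ 0) (D : Type) [Group D] (a τ : D)
    (h1 : (τ * a ^ κ * τ⁻¹) * a * (τ * a ^ κ * τ⁻¹)⁻¹ = a ^ n)
    (h2 : ∀ i j : ℤ, (τ * a ^ κ * τ⁻¹) ^ i * a ^ j = 1 → i = 0 ∧ j = 0) :
    ∃ (B : Type) (_ : Group B) (P R : Subgroup B) (φ : P ≃* R)
      (Ψ : PresentedGroup ({rel n κ} : Set (FreeGroup (Fin 2))) →* HNNExtension B P R φ)
      (f : HNNExtension B P R φ →* D),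
      Function.Injective Ψ ∧ Function.Injective (f.comp HNNExtension.of) := by
  sorry

end Pool.Agent.H476RA
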