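import Mathlib
import Pool.Agent.H476RA.Step

set_option autoImplicit false

namespace Pool.Agent.H476RA

open HNNExtension

/-- T1 -/
theorem wreath_hnn (B : Type) [Group B] (P R : Subgroup B) (φ : P ≃* R) (D : Type) [Group D]
    (f : B →* D) (hP : ∀ p ∈ P, f p = 1 → p = 1) (hR : ∀ p ∈ R, f p = 1 → p = 1) (τ : D)
    (hτ : ∀ p : P, τ * f p * τ⁻¹ = f (φ p)) (hs : Group.IsSolvable f.ker) :
    ∃ (W : Type) (_ : Group W) (ρ : W →* D) (ι : B →* W) (τ' : W),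
      Group.IsSolvable ρ.ker ∧ Function.Injective ι ∧ (∀ b, ρ (ι b) = f b) ∧
      ∀ p : P, τ' * ι p * τ'⁻¹ = ι (φ p) := by
  sorry

/-- T2 -/
theorem survive (B : Type) [Group B] (P R : Subgroup B) (φ : P ≃* R) (D : Type) [Group D]
    (f : HNNExtension B P R φ →* D) (hP : ∀ p ∈ P, f (of p) = 1 → p = 1)
    (hB : ∀ b : B, b ≠ 1 → f (of b) = 1 → ∃ l, b ∉ NN (f.comp of) l)
    (g : HNNExtension B P R φ) (hg : g ≠ 1) :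
    ∃ (B' : Type) (_ : Group B') (P' R' : Subgroup B') (φ' : P' ≃* R') (q : B →* B')
      (f' : B' →* D) (Q : HNNExtension B P R φ →* HNNExtension B' P' R' φ'),
      (∀ b, f' (q b) = f (of b)) ∧ Group.IsSolvable f'.ker ∧ (∀ p ∈ P', f' p = 1 → p = 1) ∧
      (∀ p ∈ R', f' p = 1 → p = 1) ∧ (∀ p : P', f t * f' p * (f t)⁻¹ = f' (φ' p)) ∧ Q g ≠ 1 := by
  sorry

/-- the relator -/
def rel3 (m n κ : ℤ) : FreeGroup (Fin 2) :=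
  (FreeGroup.of 1 * FreeGroup.of 0 ^ κ * (FreeGroup.of 1)⁻¹) * FreeGroup.of 0 ^ m *
    (FreeGroup.of 1 * FreeGroup.of 0 ^ κ * (FreeGroup.of 1)⁻¹)⁻¹ * (FreeGroup.of 0 ^ n)⁻¹

/-- T3 -/
theorem model3 (m n κ : ℤ) (hm : m ≠ 0) (hn : n ≠ 0) (hκ : κ ≠ 0) (D : Type) [Group D] (a τ : D)
    (h1 : (τ * a ^ κ * τ⁻¹) * a ^ m * (τ * a ^ κ * τ⁻¹)⁻¹ = a ^ n)
    (h2 : ∀ i j : ℤ, (τ * a ^ κ * τ⁻¹) ^ i * a ^ j = 1 → i = 0 ∧ j = 0) :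
    ∃ (B0 : Type) (_ : Group B0) (P0 R0 : Subgroup B0) (φ0 : P0 ≃* R0)
      (P R : Subgroup (HNNExtension B0 P0 R0 φ0)) (φ : P ≃* R)
      (Ψ : PresentedGroup ({rel3 m n κ} : Set (FreeGroup (Fin 2))) →*
        HNNExtension (HNNExtension B0 P0 R0 φ0) P R φ)
      (f : HNNExtension (HNNExtension B0 P0 R0 φ0) P R φ →* D),
      Function.Injective Ψ ∧ (∀ b : B0, f (of (of b)) = 1 → b = 1) ∧
        ∀ p ∈ P, f (of p) = 1 → p = 1 := by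
  sorry

/-- T4: the amenable group -/
theorem exists_D3 (m n κ : ℤ) (hm : m ≠ 0) (hn : n ≠ 0) (hκ : κ ≠ 0) :
    ∃ (D : Type) (_ : Group D) (χ : D →* Multiplicative ℤ) (a τ : D),
      (∀ S : Finset D, (∀ s ∈ S, χ s = 1) → Group.IsSolvable (Subgroup.closure (S : Set D))) ∧
      (τ * a ^ κ * τ⁻¹) * a ^ m * (τ * a ^ κ * τ⁻¹)⁻¹ = a ^ n ∧
      ∀ i j : ℤ, (τ * a ^ κ * τ⁻¹) ^ i * a ^ j = 1 → i = 0 ∧ j = 0 := by
  sorry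

end Pool.Agent.H476RA
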