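import Mathlib

set_option autoImplicit false

/-!
# Task D: the amenable group (`Pool/Agent/H476RA/Skel.lean`)
-/

namespace Pool.Agent.H476RA

namespace TD

open Function Classical

abbrev X : Type := ℤ → ℚ

/-- the increment of the `k`-th coordinate -/
noncomputable def ff (n k : ℤ) (x : X) : ℚ :=
  if (∀ j < k - 1, x j = 0) ∧ ((⌊x (k - 1)⌋ : ℤ) : ℚ) = x (k - 1) then (n : ℚ) ^ (-⌊x (k - 1)⌋)
  else 0

lemma ff_congr {n k : ℤ} {x x' : X} (h : ∀ j < k, x j = x' j) : ff n k x = ff n k x' := by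
  unfold ff
  rw [h (k - 1) (by omega)]
  have : (∀ j < k - 1, x j = 0) ↔ (∀ j < k - 1, x' j = 0) := by
    constructor
    · intro h1 j hj
      rw [← h j (by omega)]
      exact h1 j hj
    · intro h1 j hj
      rw [h j (by omega)]
      exact h1 j hj
  rw [this]

lemma ff_update {n k : ℤ} {x : X} (v : ℚ) : ff n k (update x k v) = ff n k x := by
  apply ff_congr
  intro j hj
  rw [update_of_ne hj.ne]

noncomputable def yf (n k : ℤ) (c : ℚ) (x : X) : X := update x k (x k + c * ff n k x)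

lemma yf_add (n k : ℤ) (c d : ℚ) (x : X) : yf n k c (yf n k d x) = yf n k (c + d) x := by
  unfold yf
  rw [ff_update, update_idem, update_self]
  congr 1
  ring

lemma yf_zero (n k : ℤ) (x : X) : yf n k 0 x = x := by
  unfold yf
  rw [zero_mul, add_zero, update_eq_self]

lemma yf_of_ne {n k : ℤ} {c : ℚ} {x : X} {j : ℤ} (h : j ≠ k) : yf n k c x j = x j := by
  unfold yf
  rw [update_of_ne h]

lemma yf_self {n k : ℤ} {c : ℚ} {x : X} : yf n k c x k = x k + c * ff n k x := by
  unfold yf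
  rw [update_self]

noncomputable def y (n k : ℤ) (c : ℚ) : Equiv.Perm X where
  toFun := yf n k c
  invFun := yf n k (-c)
  left_inv x := by rw [yf_add, neg_add_cancel, yf_zero]
  right_inv x := by rw [yf_add, add_neg_cancel, yf_zero]

lemma y_apply (n k : ℤ) (c : ℚ) (x : X) : y n k c x = yf n k c x := rfl

lemma y_inv (n k : ℤ) (c : ℚ) : (y n k c)⁻¹ = y n k (-c) := by
  ext1 x
  rfl

noncomputable def yh (n k : ℤ) : Multiplicative ℚ →* Equiv.Perm X where
  toFun c := y n k (Multiplicative.toAdd c)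
  map_one' := by
    ext1 x
    exact yf_zero n k x
  map_mul' c d := by
    ext1 x
    exact (yf_add n k _ _ x).symm

lemma y_zpow (n k : ℤ) (c : ℚ) (m : ℤ) : (y n k c) ^ m = y n k (m * c) := by
  have h := map_zpow (yh n k) (Multiplicative.ofAdd c) m
  rw [← ofAdd_zsmul, zsmul_eq_mul] at h
  exact h.symm

/-- the shift -/
def sh (s : ℤ) : Equiv.Perm X where
  toFun x j := x (j + s)
  invFun x j := x (j - s)
  left_inv x := by
    funext j
    simp
  right_inv x := by
    funext j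
    simp

lemma sh_apply (s : ℤ) (x : X) (j : ℤ) : sh s x j = x (j + s) := rfl

lemma sh_mul (s t : ℤ) : sh s * sh t = sh (s + t) := by
  ext1 x
  funext j
  show x (j + s + t) = x (j + (s + t))
  rw [add_assoc]

lemma sh_zero : sh 0 = 1 := by
  ext1 x
  funext j
  show x (j + 0) = x j
  rw [add_zero]

lemma sh_inv (s : ℤ) : (sh s)⁻¹ = sh (-s) := by
  ext1 x
  rfl

lemma app_inv (g : Equiv.Perm X) (x : X) : g (g⁻¹ x) = x := g.apply_symm_apply x

/-- triangular with support in `[p, q]` -/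
def Tri (p q : ℤ) (g : Equiv.Perm X) : Prop :=
  (∀ x j, (j < p ∨ q < j) → g x j = x j) ∧
    ∀ j x x', (∀ i < j, x i = x' i) → g x j - x j = g x' j - x' j

lemma Tri.agree {p q : ℤ} {g : Equiv.Perm X} (h : Tri p q g) {j : ℤ} {x x' : X}
    (hx : ∀ i < j, x i = x' i) : ∀ i < j, g x i = g x' i := by
  intro i hi
  have h1 := h.2 i x x' (fun l hl => hx l (by omega))
  rw [hx i hi] at h1
  linarith

lemma Tri.mul {p q : ℤ} {g h : Equiv.Perm X} (hg : Tri p q g) (hh : Tri p q h) :
    Tri p q (g * h) := by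
  refine ⟨fun x j hj => ?_, fun j x x' hx => ?_⟩
  · rw [Equiv.Perm.mul_apply, hg.1 _ j hj, hh.1 _ j hj]
  · rw [Equiv.Perm.mul_apply, Equiv.Perm.mul_apply]
    have h1 := hg.2 j (h x) (h x') (hh.agree hx)
    have h2 := hh.2 j x x' hx
    linarith

lemma Tri.one (p q : ℤ) : Tri p q 1 := by
  refine ⟨fun x j hj => rfl, fun j x x' hx => ?_⟩
  rw [Equiv.Perm.one_apply, Equiv.Perm.one_apply, sub_self, sub_self]

lemma Tri.mono {p q p' q' : ℤ} {g : Equiv.Perm X} (hg : Tri p q g) (hp : p' ≤ p) (hq : q ≤ q') :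
    Tri p' q' g := ⟨fun x j hj => hg.1 x j (by omega), hg.2⟩

/-- the group of triangular permutations -/
def T (p q : ℤ) : Subgroup (Equiv.Perm X) where
  carrier := {g | Tri p q g ∧ Tri p q g⁻¹}
  mul_mem' := by
    rintro g h ⟨h1, h2⟩ ⟨h3, h4⟩
    refine ⟨h1.mul h3, ?_⟩
    rw [mul_inv_rev]
    exact h4.mul h2
  one_mem' := by
    refine ⟨Tri.one p q, ?_⟩
    rw [inv_one]
    exact Tri.one p q
  inv_mem' := by
    rintro g ⟨h1, h2⟩
    refine ⟨h2, ?_⟩
    rw [inv_inv]
    exact h1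

lemma mem_T {p q : ℤ} {g : Equiv.Perm X} : g ∈ T p q ↔ Tri p q g ∧ Tri p q g⁻¹ := Iff.rfl

lemma T_mono {p q p' q' : ℤ} (hp : p' ≤ p) (hq : q ≤ q') : T p q ≤ T p' q' :=
  fun _ h => ⟨h.1.mono hp hq, h.2.mono hp hq⟩

lemma comm_fix {p q m : ℤ} {g h : Equiv.Perm X} (hg : g ∈ T p q) (hh : h ∈ T p q)
    (hg' : ∀ x j, j < m → g x j = x j) (hh' : ∀ x j, j < m → h x j = x j) :
    ∀ x j, j < m + 1 → (g * h * g⁻¹ * h⁻¹) x j = x j := by
  have ginv : ∀ x j, j < m → g⁻¹ x j = x j := by
    intro x j hj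
    have := hg' (g⁻¹ x) j hj
    rw [app_inv] at this
    exact this.symm
  have hinv : ∀ x j, j < m → h⁻¹ x j = x j := by
    intro x j hj
    have := hh' (h⁻¹ x) j hj
    rw [app_inv] at this
    exact this.symm
  intro x j hj
  simp only [Equiv.Perm.mul_apply]
  rcases lt_or_eq_of_le (show j ≤ m by omega) with hjm | hjm
  · rw [hg' _ j hjm, hh' _ j hjm, ginv _ j hjm, hinv _ j hjm]
  · subst hjm
    set u := h⁻¹ x with hu
    set v := g⁻¹ u with hv
    set w := h v with hw
    have e1 : ∀ i < j, u i = x i := fun i hi => hinv x i hi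
    have e2 : ∀ i < j, v i = x i := fun i hi => by rw [hv, ginv u i hi, e1 i hi]
    have e3 : ∀ i < j, w i = x i := fun i hi => by rw [hw, hh' v i hi, e2 i hi]
    -- `g w - w = g v - v`, `h v - v = h u - u`
    have a1 := hg.1.2 j w v (fun i hi => by rw [e3 i hi, e2 i hi])
    have a2 := hh.1.2 j v u (fun i hi => by rw [e2 i hi, e1 i hi])
    have b1 : g v = u := by rw [hv, app_inv]
    have b2 : h u = x := by rw [hu, app_inv]
    rw [b1] at a1
    rw [b2, ← hw] at a2
    linarith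

lemma derived_fix (p q : ℤ) (l : ℕ) : ∀ g : T p q, g ∈ derivedSeries (T p q) l →
    ∀ x j, j < p + l → (g : Equiv.Perm X) x j = x j := by
  induction l with
  | zero =>
    intro g _ x j hj
    exact g.2.1.1 x j (Or.inl (by simpa using hj))
  | succ l ih =>
    intro g hg
    let N : Subgroup (T p q) :=
      { carrier := {g | ∀ x j, j < p + (l + 1 : ℕ) → (g : Equiv.Perm X) x j = x j}
        mul_mem' := by
          intro a b ha hb x j hj
          rw [Subgroup.coe_mul, Equiv.Perm.mul_apply, ha _ j hj, hb _ j hj]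
        one_mem' := by
          intro x j hj
          rfl
        inv_mem' := by
          intro a ha x j hj
          have := ha (((a : Equiv.Perm X))⁻¹ x) j hj
          rw [app_inv] at this
          rw [Subgroup.coe_inv]
          exact this.symm }
    have hN : derivedSeries (T p q) (l + 1) ≤ N := by
      rw [derivedSeries_succ, Subgroup.commutator_le]
      intro a ha b hb x j hj
      have h1 := comm_fix (m := p + l) a.2 b.2 (ih a ha) (ih b hb) x j (by push_cast at hj; linarith)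
      rw [commutatorElement_def]
      exact h1
    exact hN hg

lemma T_solvable (p q : ℤ) : Group.IsSolvable (T p q) := by
  refine ⟨⟨(q + 1 - p).toNat, ?_⟩⟩
  rw [eq_bot_iff]
  intro g hg
  rw [Subgroup.mem_bot]
  apply Subtype.ext
  ext1 x
  funext j
  rcases lt_or_ge q j with h | h
  · exact g.2.1.1 x j (Or.inr h)
  · exact derived_fix p q _ g hg x j (by
      have := Int.self_le_toNat (q + 1 - p)
      omega)

lemma y_mem (n k : ℤ) (c : ℚ) : y n k c ∈ T k k := by
  have h : ∀ c : ℚ, Tri k k (y n k c) := by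
    intro c
    refine ⟨fun x j hj => ?_, fun j x x' hx => ?_⟩
    · rw [y_apply, yf_of_ne (by omega)]
    · rw [y_apply, y_apply]
      by_cases hj : j = k
      · subst hj
        rw [yf_self, yf_self, ff_congr hx]
        ring
      · rw [yf_of_ne hj, yf_of_ne hj]
        ring
  refine ⟨h c, ?_⟩
  rw [y_inv]
  exact h (-c)

lemma Tri.conj {p q : ℤ} {g : Equiv.Perm X} (hg : Tri p q g) (s : ℤ) :
    Tri (p - s) (q - s) (sh s * g * sh (-s)) := by
  refine ⟨fun x j hj => ?_, fun j x x' hx => ?_⟩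
  · simp only [Equiv.Perm.mul_apply]
    rw [sh_apply, hg.1 _ (j + s) (by omega), sh_apply]
    congr 1
    ring
  · simp only [Equiv.Perm.mul_apply]
    have h1 := hg.2 (j + s) (sh (-s) x) (sh (-s) x') (fun i hi => by
      rw [sh_apply, sh_apply]
      exact hx _ (by omega))
    rw [sh_apply, sh_apply]
    have e : ∀ z : X, sh (-s) z (j + s) = z j := by
      intro z
      rw [sh_apply]
      congr 1
      ring
    rw [e, e] at h1
    exact h1

lemma T_conj {p q : ℤ} {g : Equiv.Perm X} (hg : g ∈ T p q) (s : ℤ) :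
    sh s * g * sh (-s) ∈ T (p - s) (q - s) := by
  refine ⟨hg.1.conj s, ?_⟩
  have e : (sh s * g * sh (-s))⁻¹ = sh s * g⁻¹ * sh (-s) := by
    rw [mul_inv_rev, mul_inv_rev, sh_inv, sh_inv, neg_neg, mul_assoc]
  rw [e]
  exact hg.2.conj s

/-- the group `D` -/
def D₀ : Subgroup (Equiv.Perm X × Multiplicative ℤ) where
  carrier := {d | ∃ p q, ∃ u ∈ T p q, d.1 = u * sh (Multiplicative.toAdd d.2)}
  mul_mem' := by
    rintro d e ⟨p, q, u, hu, hd⟩ ⟨p', q', u', hu', he⟩
    set s := Multiplicative.toAdd d.2 with hs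
    refine ⟨min p (p' - s), max q (q' - s), u * (sh s * u' * sh (-s)),
      Subgroup.mul_mem _ (T_mono (by omega) (by omega) hu)
        (T_mono (by omega) (by omega) (T_conj hu' s)), ?_⟩
    rw [Prod.fst_mul, Prod.snd_mul, hd, he, toAdd_mul, ← sh_mul, ← hs]
    have : sh (-s) * sh s = 1 := by rw [sh_mul, neg_add_cancel, sh_zero]
    calc u * sh s * (u' * sh (Multiplicative.toAdd e.2)) =
        u * (sh s * u') * sh (Multiplicative.toAdd e.2) := by simp only [mul_assoc]
      _ = u * (sh s * u') * (sh (-s) * sh s) * sh (Multiplicative.toAdd e.2) := by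
          rw [this, mul_one]
      _ = _ := by simp only [mul_assoc]
  one_mem' := ⟨0, 0, 1, Subgroup.one_mem _, by
    show (1 : Equiv.Perm X) = 1 * sh (Multiplicative.toAdd 1)
    rw [toAdd_one, sh_zero, mul_one]⟩
  inv_mem' := by
    rintro d ⟨p, q, u, hu, hd⟩
    set s := Multiplicative.toAdd d.2 with hs
    refine ⟨p - (-s), q - (-s), sh (-s) * u⁻¹ * sh (- -s), T_conj (Subgroup.inv_mem _ hu) (-s), ?_⟩
    rw [Prod.fst_inv, Prod.snd_inv, hd, toAdd_inv, ← hs, mul_inv_rev, sh_inv, mul_assoc, mul_assoc,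
      sh_mul, neg_neg, add_neg_cancel, sh_zero, mul_one]

lemma cov (S : Finset D₀) (hS : ∀ s ∈ S, (s : Equiv.Perm X × Multiplicative ℤ).2 = 1) :
    ∃ p q, ∀ s ∈ S, (s : Equiv.Perm X × Multiplicative ℤ).1 ∈ T p q := by
  induction S using Finset.induction_on with
  | empty => exact ⟨0, 0, by simp⟩
  | insert a S ha ih =>
    obtain ⟨p, q, h⟩ := ih (fun s hs => hS s (Finset.mem_insert_of_mem hs))
    obtain ⟨p', q', u, hu, hd⟩ := a.2
    rw [hS a (Finset.mem_insert_self _ _), toAdd_one, sh_zero, mul_one] at hd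
    refine ⟨min p p', max q q', fun s hs => ?_⟩
    rcases Finset.mem_insert.1 hs with rfl | hs
    · rw [hd]
      exact T_mono (by omega) (by omega) hu
    · exact T_mono (by omega) (by omega) (h s hs)

lemma ff_zero (n k : ℤ) : ff n k (fun _ => 0) = 1 := by
  unfold ff
  simp

lemma ff_step {n : ℤ} (hn : n ≠ 0) (x : X) : ff n 1 (yf n 0 (-1) x) = n * ff n 1 x := by
  have hn' : (n : ℚ) ≠ 0 := by exact_mod_cast hn
  by_cases h : ∀ j < (0 : ℤ), x j = 0
  · have h0 : ff n 0 x = 1 := by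
      unfold ff
      rw [h (0 - 1) (by omega), if_pos ⟨fun j hj => h j (by omega), by simp⟩]
      simp
    have e0 : yf n 0 (-1) x (1 - 1) = x (1 - 1) - 1 := by
      show yf n 0 (-1) x 0 = x 0 - 1
      rw [yf_self, h0]
      ring
    have e1 : (∀ j < (1 : ℤ) - 1, yf n 0 (-1) x j = 0) ↔ (∀ j < (1 : ℤ) - 1, x j = 0) := by
      refine forall_congr' fun j => ?_
      constructor
      · intro h1 hj
        exact h j (by omega)
      · intro h1 hj
        rw [yf_of_ne (by omega)]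
        exact h1 hj
    unfold ff
    rw [e0, e1, Int.floor_sub_one]
    have e2 : (((⌊x (1 - 1)⌋ - 1 : ℤ) : ℚ) = x (1 - 1) - 1) ↔
        ((⌊x (1 - 1)⌋ : ℤ) : ℚ) = x (1 - 1) := by
      push_cast
      constructor <;> intro h <;> linarith
    by_cases hc : (∀ j < (1 : ℤ) - 1, x j = 0) ∧ ((⌊x (1 - 1)⌋ : ℤ) : ℚ) = x (1 - 1)
    · rw [if_pos ⟨hc.1, e2.2 hc.2⟩, if_pos hc, show -(⌊x (1 - 1)⌋ - 1) = 1 + -⌊x (1 - 1)⌋ by ring,
        zpow_one_add₀ hn']
    · rw [if_neg (fun h => hc ⟨h.1, e2.1 h.2⟩), if_neg hc, mul_zero]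
  · have e1 : ¬ ∀ j < (1 : ℤ) - 1, yf n 0 (-1) x j = 0 := by
      intro h1
      apply h
      intro j hj
      have := h1 j (by omega)
      rwa [yf_of_ne (by omega)] at this
    have e2 : ¬ ∀ j < (1 : ℤ) - 1, x j = 0 := fun h1 => h fun j hj => h1 j (by omega)
    unfold ff
    rw [if_neg (fun hc => e1 hc.1), if_neg (fun hc => e2 hc.1), mul_zero]

lemma y_conj {n : ℤ} (hn : n ≠ 0) (c : ℚ) :
    y n 0 1 * y n 1 c * (y n 0 1)⁻¹ = y n 1 (n * c) := by
  rw [y_inv]
  ext1 x
  simp only [Equiv.Perm.mul_apply, y_apply]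
  funext j
  have hff : ff n 0 (yf n 1 c (yf n 0 (-1) x)) = ff n 0 x := by
    apply ff_congr
    intro i hi
    rw [yf_of_ne (by omega), yf_of_ne (by omega)]
  by_cases h0 : j = 0
  · subst h0
    rw [yf_self, hff, yf_of_ne (show (0 : ℤ) ≠ 1 by omega), yf_self,
      yf_of_ne (show (0 : ℤ) ≠ 1 by omega)]
    ring
  · rw [yf_of_ne h0]
    by_cases h1 : j = 1
    · subst h1
      rw [yf_self, yf_self, ff_step hn, yf_of_ne h0]
      ring
    · rw [yf_of_ne h1, yf_of_ne h0, yf_of_ne h1]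

lemma y_shift (n : ℤ) (c : ℚ) : sh 1 * y n 1 c * sh (-1) = y n 0 c := by
  ext1 x
  simp only [Equiv.Perm.mul_apply, y_apply]
  funext j
  rw [sh_apply]
  have hff : ff n 1 (sh (-1) x) = ff n 0 x := by
    unfold ff
    have e0 : sh (-1) x (1 - 1) = x (0 - 1) := rfl
    have e1 : (∀ j < (1 : ℤ) - 1, sh (-1) x j = 0) ↔ (∀ j < (0 : ℤ) - 1, x j = 0) := by
      constructor
      · intro h j hj
        have := h (j + 1) (by omega)
        rw [sh_apply, add_neg_cancel_right] at this
        exact this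
      · intro h j hj
        rw [sh_apply]
        exact h _ (by omega)
    rw [e0, e1]
  by_cases h : j = 0
  · subst h
    show yf n 1 c (sh (-1) x) 1 = _
    rw [yf_self, yf_self, hff]
    rfl
  · rw [yf_of_ne (by omega), yf_of_ne h, sh_apply]
    congr 1
    ring

end TD

open TD in
/-- D: the amenable group -/
theorem exists_D (n κ : ℤ) (hn : n ≠ 0) (hκ : κ ≠ 0) :
    ∃ (D : Type) (_ : Group D) (χ : D →* Multiplicative ℤ) (a τ : D),
      (∀ S : Finset D, (∀ s ∈ S, χ s = 1) → Group.IsSolvable (Subgroup.closure (S : Set D))) ∧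
      (τ * a ^ κ * τ⁻¹) * a * (τ * a ^ κ * τ⁻¹)⁻¹ = a ^ n ∧
      ∀ i j : ℤ, (τ * a ^ κ * τ⁻¹) ^ i * a ^ j = 1 → i = 0 ∧ j = 0 := by
  have hκ' : (κ : ℚ) ≠ 0 := by exact_mod_cast hκ
  let χ : D₀ →* Multiplicative ℤ := (MonoidHom.snd _ _).comp D₀.subtype
  let π : D₀ →* Equiv.Perm X := (MonoidHom.fst _ _).comp D₀.subtype
  let a : D₀ := ⟨(y n 1 (1 / κ), 1), 1, 1, y n 1 (1 / κ), y_mem _ _ _, by
    show y n 1 (1 / κ) = y n 1 (1 / κ) * sh (Multiplicative.toAdd 1)
    rw [toAdd_one, sh_zero, mul_one]⟩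
  let τ : D₀ := ⟨(sh 1, Multiplicative.ofAdd 1), 0, 0, 1, Subgroup.one_mem _, by
    show sh 1 = 1 * sh (Multiplicative.toAdd (Multiplicative.ofAdd 1))
    rw [toAdd_ofAdd, one_mul]⟩
  have hext : ∀ d e : D₀, π d = π e → χ d = χ e → d = e := fun d e h1 h2 =>
    Subtype.ext (Prod.ext h1 h2)
  have πa : π a = y n 1 (1 / κ) := rfl
  have πτ : π τ = sh 1 := rfl
  have χa : χ a = 1 := rfl
  have πb : π (τ * a ^ κ * τ⁻¹) = y n 0 1 := by
    rw [map_mul, map_mul, map_inv, map_zpow, πa, πτ, y_zpow, sh_inv,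
      mul_one_div_cancel hκ', y_shift]
  have χb : χ (τ * a ^ κ * τ⁻¹) = 1 := by
    rw [map_mul, map_mul, map_inv, map_zpow, χa, one_zpow, mul_one, mul_inv_cancel]
  refine ⟨D₀, inferInstance, χ, a, τ, ?_, ?_, ?_⟩
  · intro S hS
    obtain ⟨p, q, h⟩ := cov S hS
    have h1 : Subgroup.closure (S : Set D₀) ≤ (T p q).comap π := by
      rw [Subgroup.closure_le]
      exact fun s hs => h s hs
    have h2 : Subgroup.closure (S : Set D₀) ≤ χ.ker := by
      rw [Subgroup.closure_le]
      exact fun s hs => hS s hs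
    let ψ : Subgroup.closure (S : Set D₀) →* T p q :=
      (π.comp (Subgroup.closure (S : Set D₀)).subtype).codRestrict (T p q) (fun c => h1 c.2)
    have hψ : Function.Injective ψ := by
      intro c c' hc
      apply Subtype.ext
      apply hext
      · exact congrArg Subtype.val hc
      · rw [(MonoidHom.mem_ker).1 (h2 c.2), (MonoidHom.mem_ker).1 (h2 c'.2)]
    have := T_solvable p q
    exact Group.isSolvable_of_isSolvable_injective hψ
  · apply hext
    · rw [map_mul, map_mul, map_inv, πb, πa, y_conj hn, map_zpow, πa, y_zpow]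
    · rw [map_mul, map_mul, map_inv, χb, map_zpow, χa]
      simp
  · intro i j hij
    have h := congrArg π hij
    rw [map_mul, map_zpow, map_zpow, πb, πa, map_one, y_zpow, y_zpow] at h
    have h1 := fun l : ℤ => congrFun (Equiv.congr_fun h (fun _ => (0 : ℚ))) l
    have hz : ff n 0 (yf n 1 (j * (1 / κ)) (fun _ => (0 : ℚ))) = 1 := by
      rw [← ff_zero n 0]
      apply ff_congr
      intro i hi
      rw [yf_of_ne (by omega)]
    constructor
    · have h2 := h1 0
      rw [Equiv.Perm.mul_apply, y_apply, y_apply, yf_self, hz, yf_of_ne (by omega)] at h2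
      simpa using h2
    · have h2 := h1 1
      rw [Equiv.Perm.mul_apply, y_apply, y_apply, yf_of_ne (by omega), yf_self, ff_zero] at h2
      simp at h2
      rcases h2 with h2 | h2
      · exact_mod_cast h2
      · exact absurd h2 (by exact_mod_cast hκ)

end Pool.Agent.H476RA
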