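import Mathlib

set_option autoImplicit false

namespace Pool.Agent.H476RA

/-- the relator -/
def rel (n κ : ℤ) : FreeGroup (Fin 2) :=
  (FreeGroup.of 1 * FreeGroup.of 0 ^ κ * (FreeGroup.of 1)⁻¹) * FreeGroup.of 0 *
    (FreeGroup.of 1 * FreeGroup.of 0 ^ κ * (FreeGroup.of 1)⁻¹)⁻¹ * (FreeGroup.of 0 ^ n)⁻¹

namespace TE

theorem mul_zpow' {H : Type} [Group H] (A B : H) (n : ℤ) (h : B * A * B⁻¹ = A ^ n) (j : ℤ) :
    B * A ^ j = A ^ (n * j) * B := by
  have h1 : B * A ^ j * B⁻¹ = A ^ (n * j) := by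
    rw [← conj_zpow, h, zpow_mul]
  rw [← h1]
  group

theorem pow_zpow {H : Type} [Group H] (A B : H) (n : ℤ) (h : B * A * B⁻¹ = A ^ n) (k : ℕ) (j : ℤ) :
    B ^ k * A ^ j = A ^ (n ^ k * j) * B ^ k := by
  induction k generalizing j with
  | zero => simp
  | succ k ih =>
    rw [pow_succ, mul_assoc, mul_zpow' A B n h, ← mul_assoc, ih, mul_assoc]
    congr 2
    ring

theorem normal {H : Type} [Group H] (A B : H) (n : ℤ) (h : B * A * B⁻¹ = A ^ n) (x : H)
    (hx : x ∈ Subgroup.closure ({A, B} : Set H)) :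
    ∃ (i k : ℕ) (j : ℤ), x = (B ^ i)⁻¹ * A ^ j * B ^ k := by
  induction hx using Subgroup.closure_induction_right with
  | one => exact ⟨0, 0, 0, by simp⟩
  | mul_right x hx y hy ih =>
    obtain ⟨i, k, j, rfl⟩ := ih
    rcases hy with rfl | hy
    · refine ⟨i, k, j + n ^ k * 1, ?_⟩
      have h1 := pow_zpow y B n h k 1
      rw [zpow_one] at h1
      rw [mul_assoc, h1, ← mul_assoc, mul_assoc ((B ^ i)⁻¹), ← zpow_add]
    · rw [Set.mem_singleton_iff] at hy
      subst hy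
      exact ⟨i, k + 1, j, by rw [pow_succ, ← mul_assoc]⟩
  | mul_inv_cancel x hx y hy ih =>
    obtain ⟨i, k, j, rfl⟩ := ih
    rcases hy with rfl | hy
    · refine ⟨i, k, j + n ^ k * (-1), ?_⟩
      have h1 := pow_zpow y B n h k (-1)
      rw [zpow_neg_one] at h1
      rw [mul_assoc, h1, ← mul_assoc, mul_assoc ((B ^ i)⁻¹), ← zpow_add]
    · rw [Set.mem_singleton_iff] at hy
      subst hy
      rcases k with _ | k
      · refine ⟨i + 1, 0, n * j, ?_⟩
        have h1 := mul_zpow' A y n h j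
        have h2 : A ^ j * y⁻¹ = y⁻¹ * A ^ (n * j) := by
          rw [eq_inv_mul_iff_mul_eq, ← mul_assoc, h1]
          group
        rw [pow_zero, mul_one, mul_one, mul_assoc, h2, pow_succ', mul_inv_rev, mul_assoc]
      · refine ⟨i, k, j, ?_⟩
        rw [pow_succ]
        group

theorem cancel1 {H : Type} [Group H] (c x : H) : c⁻¹ * (c * x * c⁻¹) * c = x := by group

theorem cancel2 {H : Type} [Group H] (c x : H) : c * (c⁻¹ * x * c) * c⁻¹ = x := by group

theorem conj3 {H : Type} [Group H] (c x y : H) :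
    c * (x * y) * c⁻¹ = (c * x * c⁻¹) * (c * y * c⁻¹) := by group

theorem cancel4 {H : Type} [Group H] (c x : H) : c * x = c * x * c⁻¹ * c := by group

theorem fin_lem {H : Type} [Group H] (a b : H) (i k j : ℤ) (h : b ^ (-i) * a ^ j * b ^ k = 1) :
    b ^ (k - i) * a ^ j = 1 := by
  have h1 : a ^ j = b ^ i * (b ^ k)⁻¹ := by
    rw [mul_assoc, zpow_neg, inv_mul_eq_one] at h
    rw [h]
    group
  rw [h1]
  group

theorem core (n κ : ℤ) (D G : Type) [Group D] [Group G] (a τ : D) (α s : G)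
    (h1 : (τ * a ^ κ * τ⁻¹) * a * (τ * a ^ κ * τ⁻¹)⁻¹ = a ^ n)
    (h2 : ∀ i j : ℤ, (τ * a ^ κ * τ⁻¹) ^ i * a ^ j = 1 → i = 0 ∧ j = 0)
    (hrel : (s * α ^ κ * s⁻¹) * α * (s * α ^ κ * s⁻¹)⁻¹ = α ^ n) :
    ∃ (B : Type) (_ : Group B) (P R : Subgroup B) (φ : P ≃* R) (A' : B)
      (f : HNNExtension B P R φ →* D) (Λ : HNNExtension B P R φ →* G),
      Λ (HNNExtension.of A') = α ∧ Λ HNNExtension.t = s ∧
      ((HNNExtension.t : HNNExtension B P R φ) * (HNNExtension.of A') ^ κ *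
        (HNNExtension.t)⁻¹) * HNNExtension.of A' *
        ((HNNExtension.t : HNNExtension B P R φ) * (HNNExtension.of A') ^ κ *
        (HNNExtension.t)⁻¹)⁻¹ = (HNNExtension.of A') ^ n ∧
      ∀ x : B, f (HNNExtension.of x) = 1 → x = 1 := by
  classical
  obtain ⟨c, hc⟩ : ∃ c : D × G, c = (τ, s) := ⟨_, rfl⟩
  obtain ⟨A, hAe⟩ : ∃ A : D × G, A = (a, α) := ⟨_, rfl⟩
  obtain ⟨Bb, hBe⟩ : ∃ Bb : D × G, Bb = c * A ^ κ * c⁻¹ := ⟨_, rfl⟩
  have hA : Bb * A * Bb⁻¹ = A ^ n := by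
    rw [hBe, hc, hAe]
    exact Prod.ext h1 hrel
  let Γ : Subgroup (D × G) := Subgroup.closure {A, Bb}
  have hAΓ : A ∈ Γ := Subgroup.subset_closure (by simp)
  have hBΓ : Bb ∈ Γ := Subgroup.subset_closure (by simp)
  obtain ⟨A', hA'⟩ : ∃ A' : Γ, (A' : D × G) = A := ⟨⟨A, hAΓ⟩, rfl⟩
  obtain ⟨B', hB'⟩ : ∃ B' : Γ, (B' : D × G) = Bb := ⟨⟨Bb, hBΓ⟩, rfl⟩
  have hconj : ∀ i : ℤ, c * (((A' ^ κ) ^ i : Γ) : D × G) * c⁻¹ = ((B' ^ i : Γ) : D × G) := by
    intro i
    rw [Subgroup.coe_zpow, Subgroup.coe_zpow, Subgroup.coe_zpow, ← conj_zpow, hA', hB', hBe]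
  have hconj' : ∀ i : ℤ, c⁻¹ * ((B' ^ i : Γ) : D × G) * c = (((A' ^ κ) ^ i : Γ) : D × G) := by
    intro i
    rw [← hconj i, cancel1]
  have e1 : ∀ x : Subgroup.zpowers (A' ^ κ), ∃ y : Subgroup.zpowers B',
      ((y : Γ) : D × G) = c * ((x : Γ) : D × G) * c⁻¹ := by
    rintro ⟨x, hx⟩
    obtain ⟨i, rfl⟩ := Subgroup.mem_zpowers_iff.1 hx
    exact ⟨⟨B' ^ i, Subgroup.zpow_mem_zpowers _ _⟩, (hconj i).symm⟩
  have e2 : ∀ y : Subgroup.zpowers B', ∃ x : Subgroup.zpowers (A' ^ κ),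
      ((x : Γ) : D × G) = c⁻¹ * ((y : Γ) : D × G) * c := by
    rintro ⟨y, hy⟩
    obtain ⟨i, rfl⟩ := Subgroup.mem_zpowers_iff.1 hy
    exact ⟨⟨(A' ^ κ) ^ i, Subgroup.zpow_mem_zpowers _ _⟩, (hconj' i).symm⟩
  choose F hF using e1
  choose F' hF' using e2
  obtain ⟨φ, hφ⟩ : ∃ φ : Subgroup.zpowers (A' ^ κ) ≃* Subgroup.zpowers B',
      ∀ x, ((φ x : Γ) : D × G) = c * ((x : Γ) : D × G) * c⁻¹ := by
    refine ⟨{ toFun := F
              invFun := F'
              left_inv := ?_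
              right_inv := ?_
              map_mul' := ?_ }, hF⟩
    · intro x
      apply Subtype.ext
      apply Subtype.ext
      rw [hF', hF, cancel1]
    · intro y
      apply Subtype.ext
      apply Subtype.ext
      rw [hF, hF', cancel2]
    · intro x y
      apply Subtype.ext
      apply Subtype.ext
      rw [hF, Subgroup.coe_mul, Subgroup.coe_mul, Subgroup.coe_mul, Subgroup.coe_mul, hF, hF, conj3]
  have hf : ∀ x : Subgroup.zpowers (A' ^ κ), τ * ((MonoidHom.fst D G).comp Γ.subtype) (x : Γ) =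
      ((MonoidHom.fst D G).comp Γ.subtype) (φ x : Γ) * τ := by
    intro x
    have h := congrArg Prod.fst (hφ x)
    show τ * (((x : Γ) : D × G)).1 = ((φ x : Γ) : D × G).1 * τ
    rw [h, hc]
    exact cancel4 _ _
  have hg : ∀ x : Subgroup.zpowers (A' ^ κ), s * ((MonoidHom.snd D G).comp Γ.subtype) (x : Γ) =
      ((MonoidHom.snd D G).comp Γ.subtype) (φ x : Γ) * s := by
    intro x
    have h := congrArg Prod.snd (hφ x)
    show s * (((x : Γ) : D × G)).2 = ((φ x : Γ) : D × G).2 * s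
    rw [h, hc]
    exact cancel4 _ _
  have hκt : (HNNExtension.t : HNNExtension Γ _ _ φ) * (HNNExtension.of A') ^ κ *
      (HNNExtension.t)⁻¹ = HNNExtension.of B' := by
    have h := HNNExtension.equiv_eq_conj (φ := φ)
      (⟨A' ^ κ, Subgroup.mem_zpowers _⟩ : Subgroup.zpowers (A' ^ κ))
    rw [← map_zpow, ← h]
    congr 1
    apply Subtype.ext
    rw [hφ]
    have := hconj 1
    rw [zpow_one, zpow_one] at this
    exact this
  have hrelB : B' * A' * B'⁻¹ = A' ^ n := by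
    apply Subtype.ext
    rw [Subgroup.coe_mul, Subgroup.coe_mul, Subgroup.coe_inv, Subgroup.coe_zpow, hA', hB', hA]
  refine ⟨Γ, inferInstance, _, _, φ, A',
    HNNExtension.lift ((MonoidHom.fst D G).comp Γ.subtype) τ hf,
    HNNExtension.lift ((MonoidHom.snd D G).comp Γ.subtype) s hg, ?_, ?_, ?_, ?_⟩
  · rw [HNNExtension.lift_of]
    show ((A' : D × G)).2 = α
    rw [hA', hAe]
  · rw [HNNExtension.lift_t]
  · rw [hκt, ← map_inv, ← map_mul, ← map_mul, ← map_zpow, hrelB]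
  · intro x hx
    rw [HNNExtension.lift_of] at hx
    have hx1 : ((x : D × G)).1 = 1 := hx
    obtain ⟨i, k, j, hxe⟩ := normal A Bb n hA x.1 x.2
    have hfst : (τ * a ^ κ * τ⁻¹) ^ (-(i : ℤ)) * a ^ j * (τ * a ^ κ * τ⁻¹) ^ (k : ℤ) = 1 := by
      rw [hxe, hBe, hc, hAe] at hx1
      rw [zpow_neg, zpow_natCast, zpow_natCast]
      exact hx1
    obtain ⟨h5, h6⟩ := h2 ((k : ℤ) - i) j (fin_lem a _ i k j hfst)
    have h7 : k = i := by omega
    apply Subtype.ext
    rw [hxe, h6, h7]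
    simp

end TE

open TE in
/-- E: the one-relator group is an HNN extension of a group that embeds in `D` -/
theorem hnn_model (n κ : ℤ) (hn : n ≠ 0) (hκ : κ ≠ 0) (D : Type) [Group D] (a τ : D)
    (h1 : (τ * a ^ κ * τ⁻¹) * a * (τ * a ^ κ * τ⁻¹)⁻¹ = a ^ n)
    (h2 : ∀ i j : ℤ, (τ * a ^ κ * τ⁻¹) ^ i * a ^ j = 1 → i = 0 ∧ j = 0) :
    ∃ (B : Type) (_ : Group B) (P R : Subgroup B) (φ : P ≃* R)
      (Ψ : PresentedGroup ({rel n κ} : Set (FreeGroup (Fin 2))) →* HNNExtension B P R φ)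
      (f : HNNExtension B P R φ →* D),
      Function.Injective Ψ ∧ Function.Injective (f.comp HNNExtension.of) := by
  have hrel : ((PresentedGroup.of 1 : PresentedGroup ({rel n κ} : Set (FreeGroup (Fin 2)))) *
      PresentedGroup.of 0 ^ κ * (PresentedGroup.of 1)⁻¹) * PresentedGroup.of 0 *
      (PresentedGroup.of 1 * PresentedGroup.of 0 ^ κ * (PresentedGroup.of 1)⁻¹)⁻¹ =
      PresentedGroup.of 0 ^ n := by
    have h : (PresentedGroup.mk ({rel n κ} : Set (FreeGroup (Fin 2)))) (rel n κ) = 1 :=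
      PresentedGroup.one_of_mem (Set.mem_singleton _)
    have h' : (PresentedGroup.mk ({rel n κ} : Set (FreeGroup (Fin 2)))) (rel n κ) =
      ((PresentedGroup.of 1 : PresentedGroup ({rel n κ} : Set (FreeGroup (Fin 2)))) *
      PresentedGroup.of 0 ^ κ * (PresentedGroup.of 1)⁻¹) * PresentedGroup.of 0 *
      (PresentedGroup.of 1 * PresentedGroup.of 0 ^ κ * (PresentedGroup.of 1)⁻¹)⁻¹ *
      (PresentedGroup.of 0 ^ n)⁻¹ := rfl
    rw [h'] at h
    exact mul_inv_eq_one.1 h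
  obtain ⟨B, iB, P, R, φ, A', f, Λ, hΛ0, hΛ1, hR, hinj⟩ := core n κ D
    (PresentedGroup ({rel n κ} : Set (FreeGroup (Fin 2)))) a τ _ _ h1 h2 hrel
  let v : Fin 2 → HNNExtension B P R φ := ![HNNExtension.of A', HNNExtension.t]
  have hv : ∀ r ∈ ({rel n κ} : Set (FreeGroup (Fin 2))), FreeGroup.lift v r = 1 := by
    intro r hr
    rw [Set.mem_singleton_iff] at hr
    subst hr
    unfold rel
    simp only [map_mul, map_inv, map_zpow, FreeGroup.lift_apply_of]
    have hv0 : v 0 = HNNExtension.of A' := rfl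
    have hv1 : v 1 = HNNExtension.t := rfl
    rw [hv0, hv1, hR, mul_inv_cancel]
  refine ⟨B, iB, P, R, φ, PresentedGroup.toGroup hv, f, ?_, ?_⟩
  · have hid : Λ.comp (PresentedGroup.toGroup hv) = MonoidHom.id _ := by
      apply PresentedGroup.ext
      intro i
      fin_cases i
      · show Λ (PresentedGroup.toGroup hv (PresentedGroup.of 0)) = PresentedGroup.of 0
        rw [PresentedGroup.toGroup.of hv]
        exact hΛ0
      · show Λ (PresentedGroup.toGroup hv (PresentedGroup.of 1)) = PresentedGroup.of 1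
        rw [PresentedGroup.toGroup.of hv]
        exact hΛ1
    intro x y hxy
    have hx := DFunLike.congr_fun hid x
    have hy := DFunLike.congr_fun hid y
    rw [MonoidHom.comp_apply, MonoidHom.id_apply] at hx hy
    rw [← hx, ← hy, hxy]
  · rw [injective_iff_map_eq_one]
    intro x hx
    exact hinj x hx

end Pool.Agent.H476RA
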